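import Pool.Agent.Helper57.HS.DefsB
import Pool.Agent.Helper10.SP.WIRT

/-!
# Calculus of matrix fields

`cdM k X`, `cdbM k X`: the entrywise derivatives `cd k`, `cdb k` (twice the Wirtinger derivatives) of the matrix
field `X`. Product rule, inverse, adjoint, trace, commutation, smoothness.
-/

open Complex Metric Set Filter Topology MeasureTheory
open scoped ContDiff ComplexConjugate ComplexOrder Manifold Matrix

namespace Pool.Agent.Helper45.HS

open Pool.Agent.Helper95.Lin Pool.Agent.Helper16.Abund Pool.Agent.Helper92.Orb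
  Pool.Agent.Helper10.SP Pool.Agent.Helper95.RK Pool.Agent.Helper57.HS

/-- A smooth matrix field on `W`. -/
def SmM {n m : ℕ} (X : Cn n → Matrix (Fin m) (Fin m) ℂ) (W : Set (Cn n)) : Prop :=
  ∀ i j, ContDiffOn ℝ ∞ (fun x => X x i j) W

variable {n m : ℕ} {W : Set (Cn n)} {X Y : Cn n → Matrix (Fin m) (Fin m) ℂ} {x : Cn n}

/-! ## Smoothness -/

theorem SmM.mul (hX : SmM X W) (hY : SmM Y W) : SmM (fun x => X x * Y x) W := by
  intro i j
  simp only [Matrix.mul_apply]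
  exact ContDiffOn.sum fun p _ => (hX i p).mul (hY p j)

theorem SmM.add (hX : SmM X W) (hY : SmM Y W) : SmM (fun x => X x + Y x) W :=
  fun i j => (hX i j).add (hY i j)

theorem SmM.sub (hX : SmM X W) (hY : SmM Y W) : SmM (fun x => X x - Y x) W :=
  fun i j => (hX i j).sub (hY i j)

theorem SmM.neg (hX : SmM X W) : SmM (fun x => - X x) W :=
  fun i j => (hX i j).neg

theorem SmM.const (A : Matrix (Fin m) (Fin m) ℂ) : SmM (fun _ : Cn n => A) W :=
  fun _ _ => contDiffOn_const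

theorem SmM.smul {f : Cn n → ℂ} (hf : ContDiffOn ℝ ∞ f W) (hX : SmM X W) :
    SmM (fun x => f x • X x) W := by
  intro i j
  simp only [Matrix.smul_apply, smul_eq_mul]
  exact hf.mul (hX i j)

theorem SmM.sum {ι : Type*} (s : Finset ι) {F : ι → Cn n → Matrix (Fin m) (Fin m) ℂ}
    (h : ∀ a ∈ s, SmM (F a) W) : SmM (fun x => ∑ a ∈ s, F a x) W := by
  intro i j
  simp only [Matrix.sum_apply]
  exact ContDiffOn.sum fun a ha => h a ha i j

theorem SmM.conjTranspose (hX : SmM X W) : SmM (fun x => (X x)ᴴ) W := by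
  intro i j
  have h := hX j i
  exact Complex.conjCLE.contDiff.comp_contDiffOn h

theorem SmM.trace (hX : SmM X W) : ContDiffOn ℝ ∞ (fun x => Matrix.trace (X x)) W := by
  unfold Matrix.trace
  exact ContDiffOn.sum fun i _ => hX i i

theorem SmM.det (hX : SmM X W) : ContDiffOn ℝ ∞ (fun x => (X x).det) W := by
  simp only [Matrix.det_apply']
  refine ContDiffOn.sum fun σ _ => ?_
  exact contDiffOn_const.mul (contDiffOn_prod fun i _ => hX (σ i) i)

theorem SmM.adjugate (hX : SmM X W) : SmM (fun x => (X x).adjugate) W := by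
  intro i j
  simp only [Matrix.adjugate_apply]
  have h : SmM (fun x => (X x).updateRow j (Pi.single i 1)) W := by
    intro a b
    by_cases ha : a = j
    · subst ha
      simp only [Matrix.updateRow_self]
      exact contDiffOn_const
    · simp only [Matrix.updateRow_ne ha]
      exact hX a b
  exact h.det

theorem SmM.inv (hX : SmM X W) (h0 : ∀ x ∈ W, (X x).det ≠ 0) : SmM (fun x => (X x)⁻¹) W := by
  intro i j
  have h : ∀ x, (X x)⁻¹ i j = ((X x).det)⁻¹ * (X x).adjugate i j := by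
    intro x
    rw [Matrix.inv_def, Matrix.smul_apply, smul_eq_mul, Ring.inverse_eq_inv']
  simp only [h]
  exact (hX.det.inv h0).mul (hX.adjugate i j)

theorem SmM.cdM (hW : IsOpen W) (hX : SmM X W) (k : Fin n) : SmM (cdM k X) W :=
  fun i j => Wirt.cd_smooth hW (hX i j) k

theorem SmM.cdbM (hW : IsOpen W) (hX : SmM X W) (k : Fin n) : SmM (cdbM k X) W :=
  fun i j => Wirt.cdb_smooth hW (hX i j) k

theorem smM_dAt (hW : IsOpen W) (hX : SmM X W) (hx : x ∈ W) (i j : Fin m) :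
    DifferentiableAt ℝ (fun y => X y i j) x := Wirt.dAt hW (hX i j) hx

theorem posDef_det {A : Matrix (Fin m) (Fin m) ℂ} (h : A.PosDef) : A.det ≠ 0 :=
  h.det_pos.ne'

/-! ## The rules -/

theorem cd_congr' (hW : IsOpen W) (hx : x ∈ W) {f g : Cn n → ℂ} (h : ∀ y ∈ W, f y = g y)
    (k : Fin n) : cd k f x = cd k g x ∧ cdb k f x = cdb k g x := by
  have h1 : f =ᶠ[𝓝 x] g := eventually_of_mem (hW.mem_nhds hx) h
  constructor
  · unfold cd; rw [h1.fderiv_eq]
  · unfold cdb; rw [h1.fderiv_eq]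

theorem cdM_congr (hW : IsOpen W) (hx : x ∈ W) (h : ∀ y ∈ W, X y = Y y) (k : Fin n) :
    cdM k X x = cdM k Y x := by
  ext i j
  exact (cd_congr' hW hx (fun y hy => by rw [h y hy]) k).1

theorem cdbM_congr (hW : IsOpen W) (hx : x ∈ W) (h : ∀ y ∈ W, X y = Y y) (k : Fin n) :
    cdbM k X x = cdbM k Y x := by
  ext i j
  exact (cd_congr' hW hx (fun y hy => by rw [h y hy]) k).2

theorem cd_sum'' (hW : IsOpen W) (hx : x ∈ W) {ι : Type*} (s : Finset ι) {f : ι → Cn n → ℂ}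
    (hf : ∀ a ∈ s, ContDiffOn ℝ ∞ (f a) W) (k : Fin n) :
    cd k (fun y => ∑ a ∈ s, f a y) x = ∑ a ∈ s, cd k (f a) x ∧
    cdb k (fun y => ∑ a ∈ s, f a y) x = ∑ a ∈ s, cdb k (f a) x := by
  have hd : ∀ a ∈ s, DifferentiableAt ℝ (f a) x := fun a ha => Wirt.dAt hW (hf a ha) hx
  have h1 : fderiv ℝ (fun y => ∑ a ∈ s, f a y) x = ∑ a ∈ s, fderiv ℝ (f a) x :=
    fderiv_fun_sum hd
  constructor
  · unfold cd
    rw [h1]
    simp only [_root_.sum_apply, Finset.mul_sum]
    rw [← Finset.sum_sub_distrib]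
  · unfold cdb
    rw [h1]
    simp only [_root_.sum_apply, Finset.mul_sum]
    rw [← Finset.sum_add_distrib]

theorem cd_mul'' (hW : IsOpen W) (hx : x ∈ W) {f g : Cn n → ℂ} (hf : ContDiffOn ℝ ∞ f W)
    (hg : ContDiffOn ℝ ∞ g W) (k : Fin n) :
    cd k (fun y => f y * g y) x = cd k f x * g x + f x * cd k g x ∧
    cdb k (fun y => f y * g y) x = cdb k f x * g x + f x * cdb k g x := by
  have h := (Wirt.wirt W hW f g hf hg).2.2.1 k x hx
  exact ⟨by rw [h.1]; ring, by rw [h.2]; ring⟩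

theorem cd_const'' (c : ℂ) (k : Fin n) :
    cd k (fun _ : Cn n => c) x = 0 ∧ cdb k (fun _ : Cn n => c) x = 0 := by
  constructor
  · unfold cd; simp
  · unfold cdb; simp

theorem cdM_mul (hW : IsOpen W) (hx : x ∈ W) (hX : SmM X W) (hY : SmM Y W) (k : Fin n) :
    cdM k (fun y => X y * Y y) x = cdM k X x * Y x + X x * cdM k Y x := by
  ext i j
  simp only [cdM, Matrix.of_apply, Matrix.mul_apply, Matrix.add_apply]
  rw [(cd_sum'' hW hx Finset.univ (fun p _ => (hX i p).mul (hY p j)) k).1,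
    ← Finset.sum_add_distrib]
  refine Finset.sum_congr rfl fun p _ => ?_
  rw [(cd_mul'' hW hx (hX i p) (hY p j) k).1]

theorem cdbM_mul (hW : IsOpen W) (hx : x ∈ W) (hX : SmM X W) (hY : SmM Y W) (k : Fin n) :
    cdbM k (fun y => X y * Y y) x = cdbM k X x * Y x + X x * cdbM k Y x := by
  ext i j
  simp only [cdbM, Matrix.of_apply, Matrix.mul_apply, Matrix.add_apply]
  rw [(cd_sum'' hW hx Finset.univ (fun p _ => (hX i p).mul (hY p j)) k).2,
    ← Finset.sum_add_distrib]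
  refine Finset.sum_congr rfl fun p _ => ?_
  rw [(cd_mul'' hW hx (hX i p) (hY p j) k).2]

theorem cdM_add (hW : IsOpen W) (hx : x ∈ W) (hX : SmM X W) (hY : SmM Y W) (k : Fin n) :
    cdM k (fun y => X y + Y y) x = cdM k X x + cdM k Y x := by
  ext i j
  exact ((Wirt.wirt W hW _ _ (hX i j) (hY i j)).2.1 k x hx).1

theorem cdbM_add (hW : IsOpen W) (hx : x ∈ W) (hX : SmM X W) (hY : SmM Y W) (k : Fin n) :
    cdbM k (fun y => X y + Y y) x = cdbM k X x + cdbM k Y x := by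
  ext i j
  exact ((Wirt.wirt W hW _ _ (hX i j) (hY i j)).2.1 k x hx).2

theorem cdM_const (A : Matrix (Fin m) (Fin m) ℂ) (k : Fin n) : cdM k (fun _ => A) x = 0 := by
  ext i j
  exact (cd_const'' (A i j) k).1

theorem cdbM_const (A : Matrix (Fin m) (Fin m) ℂ) (k : Fin n) : cdbM k (fun _ => A) x = 0 := by
  ext i j
  exact (cd_const'' (A i j) k).2

theorem cdM_neg (hW : IsOpen W) (hx : x ∈ W) (hX : SmM X W) (k : Fin n) :
    cdM k (fun y => - X y) x = - cdM k X x := by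
  have h := cdM_add hW hx hX hX.neg k
  have h1 : (fun y => X y + - X y) = fun _ => (0 : Matrix (Fin m) (Fin m) ℂ) := by
    funext y; simp
  rw [h1, cdM_const] at h
  exact (neg_eq_of_add_eq_zero_right h.symm).symm

theorem cdbM_neg (hW : IsOpen W) (hx : x ∈ W) (hX : SmM X W) (k : Fin n) :
    cdbM k (fun y => - X y) x = - cdbM k X x := by
  have h := cdbM_add hW hx hX hX.neg k
  have h1 : (fun y => X y + - X y) = fun _ => (0 : Matrix (Fin m) (Fin m) ℂ) := by
    funext y; simp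
  rw [h1, cdbM_const] at h
  exact (neg_eq_of_add_eq_zero_right h.symm).symm

theorem cdM_sub (hW : IsOpen W) (hx : x ∈ W) (hX : SmM X W) (hY : SmM Y W) (k : Fin n) :
    cdM k (fun y => X y - Y y) x = cdM k X x - cdM k Y x := by
  have h : (fun y => X y - Y y) = fun y => X y + (fun z => - Y z) y := by
    funext y; simp [sub_eq_add_neg]
  rw [h, cdM_add hW hx hX hY.neg, cdM_neg hW hx hY, sub_eq_add_neg]

theorem cdbM_sub (hW : IsOpen W) (hx : x ∈ W) (hX : SmM X W) (hY : SmM Y W) (k : Fin n) :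
    cdbM k (fun y => X y - Y y) x = cdbM k X x - cdbM k Y x := by
  have h : (fun y => X y - Y y) = fun y => X y + (fun z => - Y z) y := by
    funext y; simp [sub_eq_add_neg]
  rw [h, cdbM_add hW hx hX hY.neg, cdbM_neg hW hx hY, sub_eq_add_neg]

theorem cdM_sum (hW : IsOpen W) (hx : x ∈ W) {ι : Type*} (s : Finset ι)
    {F : ι → Cn n → Matrix (Fin m) (Fin m) ℂ} (h : ∀ a ∈ s, SmM (F a) W) (k : Fin n) :
    cdM k (fun y => ∑ a ∈ s, F a y) x = ∑ a ∈ s, cdM k (F a) x := by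
  ext i j
  simp only [cdM, Matrix.of_apply, Matrix.sum_apply]
  exact (cd_sum'' hW hx s (fun a ha => h a ha i j) k).1

theorem cdbM_sum (hW : IsOpen W) (hx : x ∈ W) {ι : Type*} (s : Finset ι)
    {F : ι → Cn n → Matrix (Fin m) (Fin m) ℂ} (h : ∀ a ∈ s, SmM (F a) W) (k : Fin n) :
    cdbM k (fun y => ∑ a ∈ s, F a y) x = ∑ a ∈ s, cdbM k (F a) x := by
  ext i j
  simp only [cdbM, Matrix.of_apply, Matrix.sum_apply]
  exact (cd_sum'' hW hx s (fun a ha => h a ha i j) k).2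

theorem cdM_smul (hW : IsOpen W) (hx : x ∈ W) {f : Cn n → ℂ} (hf : ContDiffOn ℝ ∞ f W)
    (hX : SmM X W) (k : Fin n) :
    cdM k (fun y => f y • X y) x = cd k f x • X x + f x • cdM k X x := by
  ext i j
  simp only [cdM, Matrix.of_apply, Matrix.smul_apply, Matrix.add_apply, smul_eq_mul]
  exact (cd_mul'' hW hx hf (hX i j) k).1

theorem cdbM_smul (hW : IsOpen W) (hx : x ∈ W) {f : Cn n → ℂ} (hf : ContDiffOn ℝ ∞ f W)
    (hX : SmM X W) (k : Fin n) :
    cdbM k (fun y => f y • X y) x = cdb k f x • X x + f x • cdbM k X x := by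
  ext i j
  simp only [cdbM, Matrix.of_apply, Matrix.smul_apply, Matrix.add_apply, smul_eq_mul]
  exact (cd_mul'' hW hx hf (hX i j) k).2

theorem cdM_conjTranspose (hW : IsOpen W) (hx : x ∈ W) (hX : SmM X W) (k : Fin n) :
    cdM k (fun y => (X y)ᴴ) x = (cdbM k X x)ᴴ := by
  ext i j
  exact ((Wirt.wirt W hW _ _ (hX j i) (hX j i)).2.2.2.1 k x hx).1

theorem cdbM_conjTranspose (hW : IsOpen W) (hx : x ∈ W) (hX : SmM X W) (k : Fin n) :
    cdbM k (fun y => (X y)ᴴ) x = (cdM k X x)ᴴ := by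
  ext i j
  exact ((Wirt.wirt W hW _ _ (hX j i) (hX j i)).2.2.2.1 k x hx).2

theorem cd_trace (hW : IsOpen W) (hx : x ∈ W) (hX : SmM X W) (k : Fin n) :
    cd k (fun y => Matrix.trace (X y)) x = Matrix.trace (cdM k X x) := by
  unfold Matrix.trace
  exact (cd_sum'' hW hx Finset.univ (fun i _ => hX i i) k).1

theorem cdb_trace (hW : IsOpen W) (hx : x ∈ W) (hX : SmM X W) (k : Fin n) :
    cdb k (fun y => Matrix.trace (X y)) x = Matrix.trace (cdbM k X x) := by
  unfold Matrix.trace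
  exact (cd_sum'' hW hx Finset.univ (fun i _ => hX i i) k).2

theorem cdM_cdbM (hW : IsOpen W) (hx : x ∈ W) (hX : SmM X W) (k l : Fin n) :
    cdM k (cdbM l X) x = cdbM l (cdM k X) x := by
  ext i j
  exact ((Wirt.wirt W hW _ _ (hX i j) (hX i j)).2.2.2.2.1 k l x hx).2.2

theorem cdM_cdM (hW : IsOpen W) (hx : x ∈ W) (hX : SmM X W) (k l : Fin n) :
    cdM k (cdM l X) x = cdM l (cdM k X) x := by
  ext i j
  exact ((Wirt.wirt W hW _ _ (hX i j) (hX i j)).2.2.2.2.1 k l x hx).1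

theorem cdbM_cdbM (hW : IsOpen W) (hx : x ∈ W) (hX : SmM X W) (k l : Fin n) :
    cdbM k (cdbM l X) x = cdbM l (cdbM k X) x := by
  ext i j
  exact ((Wirt.wirt W hW _ _ (hX i j) (hX i j)).2.2.2.2.1 k l x hx).2.1

theorem cdM_inv (hW : IsOpen W) (hx : x ∈ W) (hX : SmM X W) (h0 : ∀ x ∈ W, (X x).det ≠ 0)
    (k : Fin n) : cdM k (fun y => (X y)⁻¹) x = - ((X x)⁻¹ * cdM k X x * (X x)⁻¹) := by
  have hu : ∀ y ∈ W, IsUnit (X y).det := fun y hy => (h0 y hy).isUnit
  have h1 := cdM_mul hW hx hX (hX.inv h0) k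
  have h2 : cdM k (fun y => X y * (X y)⁻¹) x = 0 := by
    rw [cdM_congr hW hx (fun y hy => Matrix.mul_nonsing_inv (X y) (hu y hy)) k, cdM_const]
  rw [h2] at h1
  have h3 : X x * cdM k (fun y => (X y)⁻¹) x = - (cdM k X x * (X x)⁻¹) :=
    (neg_eq_of_add_eq_zero_right h1.symm).symm
  have h4 : (X x)⁻¹ * (X x * cdM k (fun y => (X y)⁻¹) x) = cdM k (fun y => (X y)⁻¹) x := by
    rw [← Matrix.mul_assoc, Matrix.nonsing_inv_mul _ (hu x hx), Matrix.one_mul]
  rw [← h4, h3, Matrix.mul_neg, Matrix.mul_assoc]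

theorem cdbM_inv (hW : IsOpen W) (hx : x ∈ W) (hX : SmM X W) (h0 : ∀ x ∈ W, (X x).det ≠ 0)
    (k : Fin n) : cdbM k (fun y => (X y)⁻¹) x = - ((X x)⁻¹ * cdbM k X x * (X x)⁻¹) := by
  have hu : ∀ y ∈ W, IsUnit (X y).det := fun y hy => (h0 y hy).isUnit
  have h1 := cdbM_mul hW hx hX (hX.inv h0) k
  have h2 : cdbM k (fun y => X y * (X y)⁻¹) x = 0 := by
    rw [cdbM_congr hW hx (fun y hy => Matrix.mul_nonsing_inv (X y) (hu y hy)) k, cdbM_const]
  rw [h2] at h1
  have h3 : X x * cdbM k (fun y => (X y)⁻¹) x = - (cdbM k X x * (X x)⁻¹) :=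
    (neg_eq_of_add_eq_zero_right h1.symm).symm
  have h4 : (X x)⁻¹ * (X x * cdbM k (fun y => (X y)⁻¹) x) = cdbM k (fun y => (X y)⁻¹) x := by
    rw [← Matrix.mul_assoc, Matrix.nonsing_inv_mul _ (hu x hx), Matrix.one_mul]
  rw [← h4, h3, Matrix.mul_neg, Matrix.mul_assoc]

end Pool.Agent.Helper45.HS
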