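import Pool.Agent.Helper45.HS.GoalsC

/-!
# HS: IPD, COMM, BIA (derivatives of the pairing, commutator, contracted Bianchi identity)
-/

open Complex Metric Set Filter Topology MeasureTheory
open scoped ContDiff ComplexConjugate ComplexOrder Manifold Matrix

namespace Pool.Agent.Helper45.HS

open Pool.Agent.Helper95.Lin Pool.Agent.Helper16.Abund Pool.Agent.Helper92.Orb
  Pool.Agent.Helper10.SP Pool.Agent.Helper95.RK Pool.Agent.Helper57.HS

universe u v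

section
variable {n : ℕ} {W : Set (Cn n)} {Q : Cn n → Matrix (Fin n) (Fin n) ℂ} {x : Cn n}

theorem chf_smM (hQ : CHF Q W) : SmM Q W := hQ.smooth

theorem gam_smM (hCRV : Pool.Agent.Helper95.HS.S_CRV) (hW : IsOpen W) (hQ : CHF Q W)
    (hp : ∀ x ∈ W, (Q x).PosDef) (k : Fin n) : SmM (Gam Q k) W :=
  (hCRV W hW Q hQ hp).2.1 k

theorem cdM_Q (hCRV : Pool.Agent.Helper95.HS.S_CRV) (hW : IsOpen W) (hQ : CHF Q W)
    (hp : ∀ x ∈ W, (Q x).PosDef) (hx : x ∈ W) (p : Fin n) :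
    cdM p Q x = Gam Q p x * Q x := ((hCRV W hW Q hQ hp).2.2.2.2 x hx).2.1 p

theorem cdbM_Q (hCRV : Pool.Agent.Helper95.HS.S_CRV) (hW : IsOpen W) (hQ : CHF Q W)
    (hp : ∀ x ∈ W, (Q x).PosDef) (hx : x ∈ W) (p : Fin n) :
    cdbM p Q x = Q x * (Gam Q p x)ᴴ := ((hCRV W hW Q hQ hp).2.2.2.2 x hx).2.2.1 p

theorem cdM_Qi (hCRV : Pool.Agent.Helper95.HS.S_CRV) (hW : IsOpen W) (hQ : CHF Q W)
    (hp : ∀ x ∈ W, (Q x).PosDef) (hx : x ∈ W) (p : Fin n) :
    cdM p (fun y => (Q y)⁻¹) x = - ((Q x)⁻¹ * Gam Q p x) := by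
  have hu : IsUnit (Q x).det := isUnit_iff_ne_zero.2 (posDef_det (hp x hx))
  rw [cdM_inv hW hx hQ.smooth (fun y hy => posDef_det (hp y hy)) p, cdM_Q hCRV hW hQ hp hx p]
  rw [← Matrix.mul_assoc, Matrix.mul_assoc _ (Q x) (Q x)⁻¹, Matrix.mul_nonsing_inv _ hu,
    Matrix.mul_one]

theorem cdbM_Qi (hCRV : Pool.Agent.Helper95.HS.S_CRV) (hW : IsOpen W) (hQ : CHF Q W)
    (hp : ∀ x ∈ W, (Q x).PosDef) (hx : x ∈ W) (p : Fin n) :
    cdbM p (fun y => (Q y)⁻¹) x = - ((Gam Q p x)ᴴ * (Q x)⁻¹) := by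
  have hu : IsUnit (Q x).det := isUnit_iff_ne_zero.2 (posDef_det (hp x hx))
  rw [cdbM_inv hW hx hQ.smooth (fun y hy => posDef_det (hp y hy)) p, cdbM_Q hCRV hW hQ hp hx p]
  rw [← Matrix.mul_assoc, Matrix.nonsing_inv_mul _ hu, Matrix.one_mul]

end

/-! ## Linearity of the pairing -/

section
variable {n : ℕ} (Q : Matrix (Fin n) (Fin n) ℂ)

theorem ipA_add_left (X X' Y : Fin n → Matrix (Fin n) (Fin n) ℂ) :
    ipA Q (fun k => X k + X' k) Y = ipA Q X Y + ipA Q X' Y := by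
  unfold ipA
  simp only [add_mul, Matrix.trace_add, mul_add, Finset.sum_add_distrib]

theorem ipA_add_right (X Y Y' : Fin n → Matrix (Fin n) (Fin n) ℂ) :
    ipA Q X (fun k => Y k + Y' k) = ipA Q X Y + ipA Q X Y' := by
  unfold ipA
  simp only [Matrix.conjTranspose_add, add_mul, mul_add, Matrix.trace_add, Finset.sum_add_distrib]

theorem ipA_sub_left (X X' Y : Fin n → Matrix (Fin n) (Fin n) ℂ) :
    ipA Q (fun k => X k - X' k) Y = ipA Q X Y - ipA Q X' Y := by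
  unfold ipA
  simp only [sub_mul, Matrix.trace_sub, mul_sub, Finset.sum_sub_distrib]

theorem ipA_sub_right (X Y Y' : Fin n → Matrix (Fin n) (Fin n) ℂ) :
    ipA Q X (fun k => Y k - Y' k) = ipA Q X Y - ipA Q X Y' := by
  unfold ipA
  simp only [Matrix.conjTranspose_sub, sub_mul, mul_sub, Matrix.trace_sub, Finset.sum_sub_distrib]

theorem ipA_act_left (G : Matrix (Fin n) (Fin n) ℂ) (X Y : Fin n → Matrix (Fin n) (Fin n) ℂ) :
    ipA Q (fun k => ∑ m, G k m • X m) Y =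
      ∑ k, ∑ l, (Q⁻¹ * G) l k * Matrix.trace (X k * Q * (Y l)ᴴ * Q⁻¹) := by
  unfold ipA
  simp only [Finset.sum_mul, Matrix.smul_mul, Matrix.trace_sum, Matrix.trace_smul, smul_eq_mul,
    Finset.mul_sum, Matrix.mul_apply]
  -- `∑ k, ∑ l, ∑ m, Q⁻¹ l k * (G k m * t m l) = ∑ k, ∑ l, ∑ m, Q⁻¹ l m * G m k * t k l`
  have h1 : ∀ k : Fin n, ∑ l, ∑ m, Q⁻¹ l k * (G k m * Matrix.trace (X m * Q * (Y l)ᴴ * Q⁻¹)) =
      ∑ m, ∑ l, Q⁻¹ l k * (G k m * Matrix.trace (X m * Q * (Y l)ᴴ * Q⁻¹)) :=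
    fun k => Finset.sum_comm
  rw [Finset.sum_congr rfl fun k _ => h1 k, Finset.sum_comm]
  refine Finset.sum_congr rfl fun k _ => ?_
  rw [Finset.sum_comm]
  refine Finset.sum_congr rfl fun l _ => Finset.sum_congr rfl fun m _ => ?_
  ring

theorem ipA_act_right (G : Matrix (Fin n) (Fin n) ℂ) (X Y : Fin n → Matrix (Fin n) (Fin n) ℂ) :
    ipA Q X (fun l => ∑ m, G l m • Y m) =
      ∑ k, ∑ l, (Gᴴ * Q⁻¹) l k * Matrix.trace (X k * Q * (Y l)ᴴ * Q⁻¹) := by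
  unfold ipA
  refine Finset.sum_congr rfl fun k _ => ?_
  simp only [Matrix.conjTranspose_sum, Matrix.conjTranspose_smul, Finset.sum_mul, Finset.mul_sum,
    Matrix.smul_mul, Matrix.mul_smul, Matrix.trace_sum, Matrix.trace_smul, smul_eq_mul,
    Matrix.mul_apply (M := Gᴴ), Matrix.conjTranspose_apply]
  rw [Finset.sum_comm]
  refine Finset.sum_congr rfl fun l _ => Finset.sum_congr rfl fun m _ => ?_
  ring

end

/-! ## IPD -/

theorem nab_smM (hCRV : Pool.Agent.Helper95.HS.S_CRV) {n : ℕ} {W : Set (Cn n)} (hW : IsOpen W)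
    {Q : Cn n → Matrix (Fin n) (Fin n) ℂ} (hQ : CHF Q W) (hp : ∀ x ∈ W, (Q x).PosDef)
    {X : Fin n → Cn n → Matrix (Fin n) (Fin n) ℂ} (hX : ∀ k, SmM (X k) W) (p k : Fin n) :
    SmM (nab (Gam Q) p X k) W := by
  have hG := gam_smM hCRV hW hQ hp
  unfold nab
  refine (((hX k).cdM hW p).sub (((hG p).mul (hX k)).sub ((hX k).mul (hG p)))).sub ?_
  refine SmM.sum Finset.univ fun m _ => SmM.smul ?_ (hX m)
  exact hG p k m

theorem ipd (hCRV : Pool.Agent.Helper95.HS.S_CRV) : S_IPD := by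
  intro n W hW Q hQ hp X Y hX hY
  have hQs : SmM Q W := hQ.smooth
  have hQi : SmM (fun x => (Q x)⁻¹) W := hQs.inv fun x hx => posDef_det (hp x hx)
  have hM : ∀ k l, SmM (fun x => X k x * Q x * (Y l x)ᴴ * (Q x)⁻¹) W := fun k l =>
    (((hX k).mul hQs).mul (hY l).conjTranspose).mul hQi
  have hterm : ∀ k l, ContDiffOn ℝ ∞ (fun x => (Q x)⁻¹ l k *
      Matrix.trace (X k x * Q x * (Y l x)ᴴ * (Q x)⁻¹)) W := fun k l =>
    (hQi l k).mul (hM k l).trace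
  refine ⟨?_, fun p k => nab_smM hCRV hW hQ hp hX p k, ?_⟩
  · unfold ipA
    exact ContDiffOn.sum fun k _ => ContDiffOn.sum fun l _ => hterm k l
  intro x hx p
  have hu : IsUnit (Q x).det := isUnit_iff_ne_zero.2 (posDef_det (hp x hx))
  constructor
  · -- `cd`
    have hdM : ∀ k l, cdM p (fun x => X k x * Q x * (Y l x)ᴴ * (Q x)⁻¹) x =
        cdM p (X k) x * Q x * (Y l x)ᴴ * (Q x)⁻¹ +
        X k x * Gam Q p x * Q x * (Y l x)ᴴ * (Q x)⁻¹ +
        X k x * Q x * (cdbM p (Y l) x)ᴴ * (Q x)⁻¹ -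
        X k x * Q x * (Y l x)ᴴ * (Q x)⁻¹ * Gam Q p x := by
      intro k l
      rw [cdM_mul hW hx (((hX k).mul hQs).mul (hY l).conjTranspose) hQi,
        cdM_mul hW hx ((hX k).mul hQs) (hY l).conjTranspose, cdM_mul hW hx (hX k) hQs,
        cdM_conjTranspose hW hx (hY l), cdM_Qi hCRV hW hQ hp hx, cdM_Q hCRV hW hQ hp hx]
      noncomm_ring
    have e1 : cd p (fun y => ipA (Q y) (fun k => X k y) (fun k => Y k y)) x =
        ∑ k, ∑ l, ((-((Q x)⁻¹ * Gam Q p x)) l k *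
          Matrix.trace (X k x * Q x * (Y l x)ᴴ * (Q x)⁻¹) + (Q x)⁻¹ l k *
          (Matrix.trace (cdM p (X k) x * Q x * (Y l x)ᴴ * (Q x)⁻¹) +
          Matrix.trace (X k x * Gam Q p x * Q x * (Y l x)ᴴ * (Q x)⁻¹) +
          Matrix.trace (X k x * Q x * (cdbM p (Y l) x)ᴴ * (Q x)⁻¹) -
          Matrix.trace (Gam Q p x * X k x * Q x * (Y l x)ᴴ * (Q x)⁻¹))) := by
      unfold ipA
      rw [(cd_sum'' hW hx Finset.univ (fun k _ => ContDiffOn.sum fun l _ => hterm k l) p).1]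
      refine Finset.sum_congr rfl fun k _ => ?_
      rw [(cd_sum'' hW hx Finset.univ (fun l _ => hterm k l) p).1]
      refine Finset.sum_congr rfl fun l _ => ?_
      rw [(cd_mul'' hW hx (hQi l k) (hM k l).trace p).1, cd_trace hW hx (hM k l), hdM]
      have e2 : cd p (fun y => (Q y)⁻¹ l k) x = (cdM p (fun y => (Q y)⁻¹) x) l k := rfl
      rw [e2, cdM_Qi hCRV hW hQ hp hx, Matrix.trace_sub, Matrix.trace_add, Matrix.trace_add]
      have e3 : Matrix.trace (X k x * Q x * (Y l x)ᴴ * (Q x)⁻¹ * Gam Q p x) =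
          Matrix.trace (Gam Q p x * X k x * Q x * (Y l x)ᴴ * (Q x)⁻¹) := by
        rw [Matrix.trace_mul_comm]
        simp only [Matrix.mul_assoc]
      rw [e3]
    rw [e1]
    unfold nab
    rw [ipA_sub_left, ipA_act_left, ipA_sub_left, ipA_sub_left]
    unfold ipA
    simp only [← Finset.sum_add_distrib, ← Finset.sum_sub_distrib]
    refine Finset.sum_congr rfl fun k _ => Finset.sum_congr rfl fun l _ => ?_
    simp only [Matrix.neg_apply]
    ring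
  · -- `cdb`
    have hdM : ∀ k l, cdbM p (fun x => X k x * Q x * (Y l x)ᴴ * (Q x)⁻¹) x =
        cdbM p (X k) x * Q x * (Y l x)ᴴ * (Q x)⁻¹ +
        X k x * Q x * (Gam Q p x)ᴴ * (Y l x)ᴴ * (Q x)⁻¹ +
        X k x * Q x * (cdM p (Y l) x)ᴴ * (Q x)⁻¹ -
        X k x * Q x * (Y l x)ᴴ * (Gam Q p x)ᴴ * (Q x)⁻¹ := by
      intro k l
      rw [cdbM_mul hW hx (((hX k).mul hQs).mul (hY l).conjTranspose) hQi,
        cdbM_mul hW hx ((hX k).mul hQs) (hY l).conjTranspose, cdbM_mul hW hx (hX k) hQs,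
        cdbM_conjTranspose hW hx (hY l), cdbM_Qi hCRV hW hQ hp hx, cdbM_Q hCRV hW hQ hp hx]
      noncomm_ring
    have e1 : cdb p (fun y => ipA (Q y) (fun k => X k y) (fun k => Y k y)) x =
        ∑ k, ∑ l, ((-((Gam Q p x)ᴴ * (Q x)⁻¹)) l k *
          Matrix.trace (X k x * Q x * (Y l x)ᴴ * (Q x)⁻¹) + (Q x)⁻¹ l k *
          (Matrix.trace (cdbM p (X k) x * Q x * (Y l x)ᴴ * (Q x)⁻¹) +
          Matrix.trace (X k x * Q x * (Gam Q p x)ᴴ * (Y l x)ᴴ * (Q x)⁻¹) +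
          Matrix.trace (X k x * Q x * (cdM p (Y l) x)ᴴ * (Q x)⁻¹) -
          Matrix.trace (X k x * Q x * (Y l x)ᴴ * (Gam Q p x)ᴴ * (Q x)⁻¹))) := by
      unfold ipA
      rw [(cd_sum'' hW hx Finset.univ (fun k _ => ContDiffOn.sum fun l _ => hterm k l) p).2]
      refine Finset.sum_congr rfl fun k _ => ?_
      rw [(cd_sum'' hW hx Finset.univ (fun l _ => hterm k l) p).2]
      refine Finset.sum_congr rfl fun l _ => ?_
      rw [(cd_mul'' hW hx (hQi l k) (hM k l).trace p).2, cdb_trace hW hx (hM k l), hdM]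
      have e2 : cdb p (fun y => (Q y)⁻¹ l k) x = (cdbM p (fun y => (Q y)⁻¹) x) l k := rfl
      rw [e2, cdbM_Qi hCRV hW hQ hp hx, Matrix.trace_sub, Matrix.trace_add, Matrix.trace_add]
    rw [e1]
    unfold nab
    rw [ipA_sub_right, ipA_act_right, ipA_sub_right, ipA_sub_right]
    unfold ipA
    simp only [← Finset.sum_add_distrib, ← Finset.sum_sub_distrib]
    refine Finset.sum_congr rfl fun k _ => Finset.sum_congr rfl fun l _ => ?_
    simp only [Matrix.neg_apply, Matrix.conjTranspose_mul, ← Matrix.mul_assoc]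
    ring

/-! ## COMM -/

theorem comm (hCRV : Pool.Agent.Helper95.HS.S_CRV) : S_COMM := by
  intro n W hW Q hQ hp Y hY x hx p q l
  have hG := gam_smM hCRV hW hQ hp
  have hs1 : SmM (fun y => Gam Q q y * Y l y) W := (hG q).mul (hY l)
  have hs2 : SmM (fun y => Y l y * Gam Q q y) W := (hY l).mul (hG q)
  have hs3 : ∀ m, SmM (fun y => Gam Q q y l m • Y m y) W := fun m => SmM.smul (hG q l m) (hY m)
  have hs4 : SmM (fun y => ∑ m, Gam Q q y l m • Y m y) W := SmM.sum Finset.univ fun m _ => hs3 m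
  have e0 : nab (Gam Q) q Y l = fun y => (fun z => cdM q (Y l) z -
      (fun z => (fun z => Gam Q q z * Y l z) z - (fun z => Y l z * Gam Q q z) z) z) y -
      (fun z => ∑ m, Gam Q q z l m • Y m z) y := rfl
  rw [e0, cdbM_sub hW hx (((hY l).cdM hW q).sub (hs1.sub hs2)) hs4,
    cdbM_sub hW hx ((hY l).cdM hW q) (hs1.sub hs2), cdbM_sub hW hx hs1 hs2,
    cdbM_mul hW hx (hG q) (hY l), cdbM_mul hW hx (hY l) (hG q),
    cdbM_sum hW hx Finset.univ (fun m _ => hs3 m)]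
  have e1 : ∀ m, cdbM p (fun y => Gam Q q y l m • Y m y) x =
      (cdbM p (Gam Q q) x) l m • Y m x + Gam Q q x l m • cdbM p (Y m) x := fun m =>
    cdbM_smul hW hx (hG q l m) (hY m) p
  have e2 : cdbM p (cdM q (Y l)) x = cdM q (cdbM p (Y l)) x := (cdM_cdbM hW hx (hY l) q p).symm
  have e3 : cdbM p (fun z => cdM q (Y l) z) x = cdM q (cdbM p (Y l)) x := e2
  rw [e3]
  simp only [e1, Finset.sum_add_distrib]
  unfold nab actZ Rme
  simp only [Matrix.neg_apply, neg_smul, Finset.sum_neg_distrib]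
  noncomm_ring

/-! ## BIA -/

theorem bia_a (hCRV : Pool.Agent.Helper95.HS.S_CRV) {n : ℕ} {W : Set (Cn n)} (hW : IsOpen W)
    {Q : Cn n → Matrix (Fin n) (Fin n) ℂ} (hQ : CHF Q W) (hp : ∀ x ∈ W, (Q x).PosDef)
    {x : Cn n} (hx : x ∈ W) (p k : Fin n) :
    cdM p (Gam Q k) x - cdM k (Gam Q p) x = Gam Q p x * Gam Q k x - Gam Q k x * Gam Q p x := by
  have hQs : SmM Q W := hQ.smooth
  have hQi : SmM (fun x => (Q x)⁻¹) W := hQs.inv fun x hx => posDef_det (hp x hx)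
  have e : ∀ p k : Fin n, cdM p (Gam Q k) x =
      cdM p (cdM k Q) x * (Q x)⁻¹ - Gam Q k x * Gam Q p x := by
    intro p k
    have e0 : Gam Q k = fun y => cdM k Q y * (Q y)⁻¹ := rfl
    rw [show cdM p (Gam Q k) x = cdM p (fun y => cdM k Q y * (Q y)⁻¹) x from rfl,
      cdM_mul hW hx (hQs.cdM hW k) hQi, cdM_Qi hCRV hW hQ hp hx]
    have e1 : Gam Q k x = cdM k Q x * (Q x)⁻¹ := rfl
    rw [e1]
    noncomm_ring
  rw [e p k, e k p, cdM_cdM hW hx hQs p k]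
  abel

theorem rme_smM (hCRV : Pool.Agent.Helper95.HS.S_CRV) {n : ℕ} {W : Set (Cn n)} (hW : IsOpen W)
    {Q : Cn n → Matrix (Fin n) (Fin n) ℂ} (hQ : CHF Q W) (hp : ∀ x ∈ W, (Q x).PosDef)
    (k l : Fin n) : SmM (Rme Q k l) W :=
  ((gam_smM hCRV hW hQ hp k).cdbM hW l).neg

theorem bia_b (hCRV : Pool.Agent.Helper95.HS.S_CRV) {n : ℕ} {W : Set (Cn n)} (hW : IsOpen W)
    {Q : Cn n → Matrix (Fin n) (Fin n) ℂ} (hQ : CHF Q W) (hp : ∀ x ∈ W, (Q x).PosDef)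
    {x : Cn n} (hx : x ∈ W) (p k q : Fin n) :
    cdM p (Rme Q k q) x - (Gam Q p x * Rme Q k q x - Rme Q k q x * Gam Q p x) =
    cdM k (Rme Q p q) x - (Gam Q k x * Rme Q p q x - Rme Q p q x * Gam Q k x) := by
  have hG := gam_smM hCRV hW hQ hp
  have h1 : cdbM q (fun y => cdM p (Gam Q k) y - cdM k (Gam Q p) y) x =
      cdbM q (fun y => (fun z => Gam Q p z * Gam Q k z) y - (fun z => Gam Q k z * Gam Q p z) y) x :=
    cdbM_congr hW hx (fun y hy => bia_a hCRV hW hQ hp hy p k) q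
  rw [cdbM_sub hW hx ((hG k).cdM hW p) ((hG p).cdM hW k),
    cdbM_sub hW hx ((hG p).mul (hG k)) ((hG k).mul (hG p)),
    cdbM_mul hW hx (hG p) (hG k), cdbM_mul hW hx (hG k) (hG p)] at h1
  have e : ∀ p k : Fin n, cdM p (Rme Q k q) x = - cdbM q (cdM p (Gam Q k)) x := by
    intro p k
    rw [show Rme Q k q = fun y => - cdbM q (Gam Q k) y from rfl,
      cdM_neg hW hx ((hG k).cdbM hW q), cdM_cdbM hW hx (hG k) p q]
  rw [e p k, e k p]
  have e2 : ∀ k : Fin n, Rme Q k q x = - cdbM q (Gam Q k) x := fun k => rfl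
  rw [e2 k, e2 p]
  have h2 : cdbM q (cdM p (Gam Q k)) x = cdbM q (cdM k (Gam Q p)) x +
      (cdbM q (Gam Q p) x * Gam Q k x + Gam Q p x * cdbM q (Gam Q k) x -
      (cdbM q (Gam Q k) x * Gam Q p x + Gam Q k x * cdbM q (Gam Q p) x)) := by
    rw [← h1]; abel
  rw [h2]
  noncomm_ring

theorem bia (hCRV : Pool.Agent.Helper95.HS.S_CRV) : S_BIA := by
  intro n W hW Q η hQ hp hη heq
  have hQs : SmM Q W := hQ.smooth
  have hQi : SmM (fun x => (Q x)⁻¹) W := hQs.inv fun x hx => posDef_det (hp x hx)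
  have hR := rme_smM hCRV hW hQ hp
  have hG := gam_smM hCRV hW hQ hp
  -- first part
  have hZ : ∀ x ∈ W, ∑ p, ∑ q, (Q x)⁻¹ q p • Rme Q p q x = -1 + η x * (Q x)⁻¹ := by
    intro x hx
    have hu : IsUnit (Q x).det := isUnit_iff_ne_zero.2 (posDef_det (hp x hx))
    obtain ⟨-, -, -, hcr, -, htr⟩ := (hCRV W hW Q hQ hp).2.2.2.2 x hx
    have h1 : (∑ p, ∑ q, (Q x)⁻¹ q p • Rme Q p q x) * Q x = - rho Q x := by
      ext i j
      rw [Matrix.neg_apply, ← htr i j, Finset.sum_mul, Matrix.sum_apply]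
      refine Finset.sum_congr rfl fun p _ => ?_
      rw [Finset.sum_mul, Matrix.sum_apply]
      refine Finset.sum_congr rfl fun q _ => ?_
      rw [hcr i j p q, Matrix.smul_mul, Matrix.smul_apply, smul_eq_mul]
      rfl
    have h2 : (∑ p, ∑ q, (Q x)⁻¹ q p • Rme Q p q x) =
        (∑ p, ∑ q, (Q x)⁻¹ q p • Rme Q p q x) * Q x * (Q x)⁻¹ := by
      rw [Matrix.mul_assoc, Matrix.mul_nonsing_inv _ hu, Matrix.mul_one]
    rw [h2, h1, heq x hx, neg_sub, sub_mul, Matrix.mul_nonsing_inv _ hu]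
    abel
  intro x hx
  refine ⟨hZ x hx, fun k => ?_⟩
  have hu : IsUnit (Q x).det := isUnit_iff_ne_zero.2 (posDef_det (hp x hx))
  obtain ⟨hsym, -⟩ := (hCRV W hW Q hQ hp).2.2.2.2 x hx
  -- derivative of `Z`
  have hd1 : cdM k (fun y => ∑ p, ∑ q, (Q y)⁻¹ q p • Rme Q p q y) x =
      ∑ p, ∑ q, ((-((Q x)⁻¹ * Gam Q k x)) q p • Rme Q p q x +
        (Q x)⁻¹ q p • cdM k (Rme Q p q) x) := by
    have hs : ∀ p q, SmM (fun y => (Q y)⁻¹ q p • Rme Q p q y) W := fun p q =>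
      SmM.smul (hQi q p) (hR p q)
    rw [cdM_sum hW hx Finset.univ (fun p _ => SmM.sum Finset.univ fun q _ => hs p q)]
    refine Finset.sum_congr rfl fun p _ => ?_
    rw [cdM_sum hW hx Finset.univ (fun q _ => hs p q)]
    refine Finset.sum_congr rfl fun q _ => ?_
    rw [cdM_smul hW hx (hQi q p) (hR p q), ← cdM_Qi hCRV hW hQ hp hx]
    rfl
  have hd2 : cdM k (fun y => ∑ p, ∑ q, (Q y)⁻¹ q p • Rme Q p q y) x =
      cdM k η x * (Q x)⁻¹ - η x * (Q x)⁻¹ * Gam Q k x := by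
    rw [cdM_congr hW hx (Y := fun y => (fun _ => (-1 : Matrix (Fin n) (Fin n) ℂ)) y +
      (fun z => η z * (Q z)⁻¹) y) (fun y hy => hZ y hy) k,
      cdM_add hW hx (SmM.const _) (hη.mul hQi), cdM_const, cdM_mul hW hx hη hQi,
      cdM_Qi hCRV hW hQ hp hx]
    noncomm_ring
  -- the left side
  have hl : ∑ p, ∑ q, (Q x)⁻¹ q p • nab (Gam Q) p (fun m => Rme Q m q) k x =
      cdM k (fun y => ∑ p, ∑ q, (Q y)⁻¹ q p • Rme Q p q y) x -
      (Gam Q k x * (∑ p, ∑ q, (Q x)⁻¹ q p • Rme Q p q x) -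
        (∑ p, ∑ q, (Q x)⁻¹ q p • Rme Q p q x) * Gam Q k x) := by
    rw [hd1]
    have h1 : ∀ p q, nab (Gam Q) p (fun m => Rme Q m q) k x =
        cdM k (Rme Q p q) x - (Gam Q k x * Rme Q p q x - Rme Q p q x * Gam Q k x) -
        ∑ m, Gam Q k x p m • Rme Q m q x := by
      intro p q
      unfold nab
      rw [bia_b hCRV hW hQ hp hx p k q]
      congr 1
      refine Finset.sum_congr rfl fun m _ => ?_
      rw [hsym k m p]
    have h2 : ∑ p, ∑ q, (Q x)⁻¹ q p • ∑ m, Gam Q k x p m • Rme Q m q x =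
        ∑ p, ∑ q, ((Q x)⁻¹ * Gam Q k x) q p • Rme Q p q x := by
      simp only [Finset.smul_sum, Matrix.mul_apply, Finset.sum_smul, smul_smul]
      have h3 : ∀ p : Fin n, ∑ q, ∑ m, ((Q x)⁻¹ q p * Gam Q k x p m) • Rme Q m q x =
          ∑ m, ∑ q, ((Q x)⁻¹ q p * Gam Q k x p m) • Rme Q m q x := fun p => Finset.sum_comm
      rw [Finset.sum_congr rfl fun p _ => h3 p, Finset.sum_comm]
      refine Finset.sum_congr rfl fun m _ => ?_
      rw [Finset.sum_comm]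
    simp only [h1, smul_sub, Finset.sum_sub_distrib, Finset.sum_add_distrib, h2, Matrix.neg_apply,
      neg_smul, Finset.sum_neg_distrib, Finset.mul_sum, Finset.sum_mul, Matrix.mul_smul,
      Matrix.smul_mul]
    abel
  rw [hl, hd2, hZ x hx]
  noncomm_ring

end Pool.Agent.Helper45.HS
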