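import Pool.Agent.Helper45.HS.CalpC
import Pool.Agent.Helper57.HS.GoalsG

/-!
# HS: `S_CALQ` from `S_CALP`
-/

open Complex Metric Set Filter Topology MeasureTheory
open scoped ContDiff ComplexConjugate ComplexOrder Manifold Matrix

namespace Pool.Agent.Helper45.HS

open Pool.Agent.Helper95.Lin Pool.Agent.Helper16.Abund Pool.Agent.Helper92.Orb
  Pool.Agent.Helper10.SP Pool.Agent.Helper95.RK Pool.Agent.Helper57.HS

universe u v

theorem calq_of (h : S_CALP.{u}) : S_CALQ.{u} := by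
  intro n T G _ R H hH C hC b Λ hΛ
  obtain ⟨K, N, -, hK⟩ := h T R H hH C hC b
  exact ⟨K * Λ ^ N, fun Q η hQ hη heq hbd hle x hx => hK Λ Q η hΛ hQ hη heq hbd hle x hx⟩

theorem calq (hIPA : S_IPA) (hCALI : S_CALI.{u}) (hCLI : S_CLI.{u}) (hINVA : S_INVA.{u})
    (hTRMX : S_TRMX.{u}) (hTRLA : S_TRLA) (hTRI : Pool.Agent.Helper95.HS.S_TRI.{u}) :
    S_CALQ.{u} := calq_of (calp hIPA hCALI hCLI hINVA hTRMX hTRLA hTRI)

end Pool.Agent.Helper45.HS
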