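import Pool.Agent.Helper45.HS.IPA
import Pool.Agent.Helper70.HS.IFN
import Pool.Agent.Helper95.Lin.Basics

/-!
# HS: INVA (the function `AQt` is invariant)
-/

open Complex Metric Set Filter Topology MeasureTheory
open scoped ContDiff ComplexConjugate ComplexOrder Manifold Matrix

namespace Pool.Agent.Helper45.HS

open Pool.Agent.Helper95.Lin Pool.Agent.Helper16.Abund Pool.Agent.Helper92.Orb
  Pool.Agent.Helper10.SP Pool.Agent.Helper95.RK Pool.Agent.Helper57.HS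
open Pool.Agent.Helper70.HS (Jt det_Jt form_mat)

universe u v

/-- The pairing with a general weight. -/
noncomputable def ipW {n : ℕ} (P Q : Matrix (Fin n) (Fin n) ℂ)
    (X Y : Fin n → Matrix (Fin n) (Fin n) ℂ) : ℂ :=
  ∑ k, ∑ l, P l k * Matrix.trace (X k * Q * (Y l)ᴴ * Q⁻¹)

theorem ipW_act {n : ℕ} (P Q J : Matrix (Fin n) (Fin n) ℂ)
    (A B : Fin n → Matrix (Fin n) (Fin n) ℂ) :
    ipW P Q (fun k => ∑ m, J k m • A m) (fun l => ∑ m, J l m • B m) =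
      ipW (Jᴴ * P * J) Q A B := by
  have e1 : ∀ k l, Matrix.trace ((∑ m, J k m • A m) * Q * (∑ m, J l m • B m)ᴴ * Q⁻¹) =
      ∑ m, ∑ m', J k m * conj (J l m') * Matrix.trace (A m * Q * (B m')ᴴ * Q⁻¹) := by
    intro k l
    rw [Matrix.conjTranspose_sum]
    simp only [Matrix.conjTranspose_smul, Finset.sum_mul, Finset.mul_sum, Matrix.smul_mul,
      Matrix.mul_smul, Matrix.trace_sum, Matrix.trace_smul, smul_eq_mul]
    rw [Finset.sum_comm]
    refine Finset.sum_congr rfl fun m _ => Finset.sum_congr rfl fun m' _ => ?_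
    simp only [RCLike.star_def]
    ring
  have e2 : ∀ m m', (Jᴴ * P * J) m' m = ∑ k, ∑ l, conj (J l m') * P l k * J k m := by
    intro m m'
    simp only [Matrix.mul_apply, Matrix.conjTranspose_apply, Finset.sum_mul, RCLike.star_def]
  unfold ipW
  simp only [e1]
  simp only [e2]
  simp only [Finset.sum_mul, Finset.mul_sum]
  -- `∑ k l m m' = ∑ m m' k l`
  calc ∑ k, ∑ l, ∑ m, ∑ m', P l k * (J k m * conj (J l m') *
        Matrix.trace (A m * Q * (B m')ᴴ * Q⁻¹))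
      = ∑ k, ∑ m, ∑ m', ∑ l, P l k * (J k m * conj (J l m') *
        Matrix.trace (A m * Q * (B m')ᴴ * Q⁻¹)) := by
        refine Finset.sum_congr rfl fun k _ => ?_
        rw [Finset.sum_comm]
        refine Finset.sum_congr rfl fun m _ => ?_
        rw [Finset.sum_comm]
    _ = ∑ m, ∑ m', ∑ k, ∑ l, P l k * (J k m * conj (J l m') *
        Matrix.trace (A m * Q * (B m')ᴴ * Q⁻¹)) := by
        rw [Finset.sum_comm]
        refine Finset.sum_congr rfl fun m _ => ?_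
        rw [Finset.sum_comm]
    _ = _ := by
        refine Finset.sum_congr rfl fun m _ => Finset.sum_congr rfl fun m' _ =>
          Finset.sum_congr rfl fun k _ => Finset.sum_congr rfl fun l _ => ?_
        ring

theorem ipW_conj {n : ℕ} (P Q J : Matrix (Fin n) (Fin n) ℂ) (hJ : J.det ≠ 0)
    (A B : Fin n → Matrix (Fin n) (Fin n) ℂ) :
    ipW P (J * Q * Jᴴ) (fun k => J * A k * J⁻¹) (fun l => J * B l * J⁻¹) = ipW P Q A B := by
  have hu : IsUnit J.det := isUnit_iff_ne_zero.2 hJ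
  have hJH : IsUnit (Jᴴ).det := by
    rw [Matrix.det_conjTranspose]
    exact isUnit_iff_ne_zero.2 (star_ne_zero.2 hJ)
  unfold ipW
  refine Finset.sum_congr rfl fun k _ => Finset.sum_congr rfl fun l _ => ?_
  congr 1
  have e1 : (J * Q * Jᴴ)⁻¹ = Jᴴ⁻¹ * (Q⁻¹ * J⁻¹) := by
    rw [Matrix.mul_inv_rev, Matrix.mul_inv_rev]
  have e2 : (J * B l * J⁻¹)ᴴ = Jᴴ⁻¹ * ((B l)ᴴ * Jᴴ) := by
    rw [Matrix.conjTranspose_mul, Matrix.conjTranspose_mul, Matrix.conjTranspose_nonsing_inv]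
  rw [e1, e2]
  have e3 : J * A k * J⁻¹ * (J * Q * Jᴴ) * (Jᴴ⁻¹ * ((B l)ᴴ * Jᴴ)) * (Jᴴ⁻¹ * (Q⁻¹ * J⁻¹)) =
      J * (A k * Q * (B l)ᴴ * Q⁻¹) * J⁻¹ := by
    calc J * A k * J⁻¹ * (J * Q * Jᴴ) * (Jᴴ⁻¹ * ((B l)ᴴ * Jᴴ)) * (Jᴴ⁻¹ * (Q⁻¹ * J⁻¹))
        = J * A k * (J⁻¹ * J) * Q * (Jᴴ * Jᴴ⁻¹) * (B l)ᴴ * (Jᴴ * Jᴴ⁻¹) * Q⁻¹ * J⁻¹ := by
          simp only [Matrix.mul_assoc]
      _ = J * (A k * Q * (B l)ᴴ * Q⁻¹) * J⁻¹ := by
          rw [Matrix.nonsing_inv_mul _ hu, Matrix.mul_nonsing_inv _ hJH]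
          simp only [Matrix.mul_one, Matrix.mul_assoc]
  rw [e3, Matrix.trace_mul_comm, ← Matrix.mul_assoc, Matrix.nonsing_inv_mul _ hu, Matrix.one_mul]

/-- The transformation of the connection. -/
theorem gam_arrow (hWCH : S_WCH) (hCRV : Pool.Agent.Helper95.HS.S_CRV) {n : ℕ} {T : Set (Cn n)}
    (hT : IsOpen T) {H : Cn n → Matrix (Fin n) (Fin n) ℂ} (hH : CHF H T)
    (hp : ∀ x ∈ T, (H x).PosDef) {U : Set (Cn n)} (hU : IsOpen U) (hUT : U ⊆ T)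
    {τ : Cn n → Cn n} (hτ : DifferentiableOn ℂ τ U) (hm : MapsTo τ U T)
    (hdet : ∀ x ∈ U, (fderiv ℂ τ x).det ≠ 0)
    (hinv : ∀ x ∈ U, ∀ u v, hermi (H (τ x)) (fderiv ℂ τ x u) (fderiv ℂ τ x v) = hermi (H x) u v)
    {x : Cn n} (hx : x ∈ U) (k : Fin n) :
    Gam H k x = cdM k (fun z => Jt (fderiv ℂ τ z)) x * (Jt (fderiv ℂ τ x))⁻¹ +
      Jt (fderiv ℂ τ x) * (∑ m, Jt (fderiv ℂ τ x) k m • Gam H m (τ x)) *
        (Jt (fderiv ℂ τ x))⁻¹ := by
  set J : Cn n → Matrix (Fin n) (Fin n) ℂ := fun z => Jt (fderiv ℂ τ z) with hJdef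
  have hJx : (J x).det ≠ 0 := by
    rw [hJdef]
    simpa only [det_Jt] using hdet x hx
  have hu : IsUnit (J x).det := isUnit_iff_ne_zero.2 hJx
  have hJH : IsUnit ((J x)ᴴ).det := by
    rw [Matrix.det_conjTranspose]
    exact isUnit_iff_ne_zero.2 (star_ne_zero.2 hJx)
  have hJhol : ∀ i p, DifferentiableOn ℂ (fun z => J z i p) U := by
    intro i p
    have h1 : DifferentiableOn ℂ (fun z => fderiv ℂ τ z (Pi.single i 1)) U := fun z hz =>
      ((holo_fderiv hU hτ) z hz).clm_apply (differentiableWithinAt_const _)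
    exact fun z hz => (differentiableWithinAt_pi.1 (h1 z hz)) p
  have hJs : SmM J U := fun i p => holo_contDiffOn_real hU (hJhol i p)
  have hτs : ContDiffOn ℝ ∞ τ U := holo_contDiffOn_real hU hτ
  have hHt : SmM (fun z => H (τ z)) U := fun i j => (hH.smooth i j).comp hτs hm
  have hform : ∀ z ∈ U, H z = J z * H (τ z) * (J z)ᴴ := fun z hz =>
    form_mat (H z) (H (τ z)) (fderiv ℂ τ z) (hinv z hz)
  have hcdbJ : cdbM k J x = 0 := by
    ext i p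
    have h1 := ((Wirt.wirt U hU _ _ (hJs i p) (hJs i p)).2.2.2.2.2).2 (hJhol i p)
    exact h1 k x hx
  have hchain : cdM k (fun z => H (τ z)) x = ∑ m, J x k m • cdM m H (τ x) := by
    ext i j
    have h1 := ((hWCH.1 T U hT hU τ hτ hm).1 (fun y => H y i j) (hH.smooth i j) k x hx).1
    rw [Matrix.sum_apply]
    exact h1
  have hd : cdM k H x = cdM k J x * H (τ x) * (J x)ᴴ +
      J x * (∑ m, J x k m • cdM m H (τ x)) * (J x)ᴴ := by
    rw [cdM_congr hU hx (Y := fun z => (fun w => J w * H (τ w)) z * (fun w => (J w)ᴴ) z)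
      (fun z hz => hform z hz) k, cdM_mul hU hx (hJs.mul hHt) hJs.conjTranspose,
      cdM_mul hU hx hJs hHt, cdM_conjTranspose hU hx hJs, hcdbJ, hchain]
    simp only [Matrix.conjTranspose_zero, Matrix.mul_zero, add_zero, add_mul]
  have hHi : (H x)⁻¹ = (J x)ᴴ⁻¹ * ((H (τ x))⁻¹ * (J x)⁻¹) := by
    rw [hform x hx, Matrix.mul_inv_rev, Matrix.mul_inv_rev]
  have hHu : IsUnit (H (τ x)).det := isUnit_iff_ne_zero.2 (posDef_det (hp _ (hm hx)))
  have e1 : cdM k J x * H (τ x) * (J x)ᴴ * ((J x)ᴴ⁻¹ * ((H (τ x))⁻¹ * (J x)⁻¹)) =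
      cdM k J x * (J x)⁻¹ := by
    calc cdM k J x * H (τ x) * (J x)ᴴ * ((J x)ᴴ⁻¹ * ((H (τ x))⁻¹ * (J x)⁻¹))
        = cdM k J x * H (τ x) * ((J x)ᴴ * (J x)ᴴ⁻¹) * (H (τ x))⁻¹ * (J x)⁻¹ := by
          simp only [Matrix.mul_assoc]
      _ = cdM k J x * (H (τ x) * (H (τ x))⁻¹) * (J x)⁻¹ := by
          rw [Matrix.mul_nonsing_inv _ hJH]
          simp only [Matrix.mul_one, Matrix.mul_assoc]
      _ = _ := by rw [Matrix.mul_nonsing_inv _ hHu, Matrix.mul_one]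
  have e2 : J x * (∑ m, J x k m • cdM m H (τ x)) * (J x)ᴴ *
      ((J x)ᴴ⁻¹ * ((H (τ x))⁻¹ * (J x)⁻¹)) =
      J x * (∑ m, J x k m • Gam H m (τ x)) * (J x)⁻¹ := by
    have e3 : (∑ m, J x k m • Gam H m (τ x)) =
        (∑ m, J x k m • cdM m H (τ x)) * (H (τ x))⁻¹ := by
      rw [Finset.sum_mul]
      refine Finset.sum_congr rfl fun m _ => ?_
      rw [Matrix.smul_mul]
      rfl
    rw [e3]
    calc J x * (∑ m, J x k m • cdM m H (τ x)) * (J x)ᴴ *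
        ((J x)ᴴ⁻¹ * ((H (τ x))⁻¹ * (J x)⁻¹))
        = J x * (∑ m, J x k m • cdM m H (τ x)) * ((J x)ᴴ * (J x)ᴴ⁻¹) * (H (τ x))⁻¹ * (J x)⁻¹ := by
          simp only [Matrix.mul_assoc]
      _ = _ := by
          rw [Matrix.mul_nonsing_inv _ hJH]
          simp only [Matrix.mul_one, Matrix.mul_assoc]
  have e0 : Gam H k x = cdM k H x * (H x)⁻¹ := rfl
  rw [e0, hd, hHi, add_mul, e1, e2]

theorem inva (hWCH : S_WCH) (hCRV : Pool.Agent.Helper95.HS.S_CRV) : S_INVA.{u} := by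
  intro n T G _ R H Q hH hQ
  have hT := hH.et.isOpen
  have hHc : CHF H T := ⟨hH.smooth, fun x hx => (hH.posDef x hx).isHermitian, hH.closed⟩
  have hQc : CHF Q T := ⟨hQ.smooth, fun x hx => (hQ.posDef x hx).isHermitian, hQ.closed⟩
  have hA : ∀ k, SmM (Adf H Q k) T := fun k =>
    (gam_smM hCRV hT hQc hQ.posDef k).sub (gam_smM hCRV hT hHc hH.posDef k)
  refine ⟨?_, ?_⟩
  · have h1 := ((ipd hCRV) T hT Q hQc hQ.posDef (fun k => Adf H Q k) (fun k => Adf H Q k)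
      hA hA).1
    exact Complex.reCLM.contDiff.comp_contDiffOn h1
  intro γ x y hxy
  obtain ⟨τ, U, W, hU, hW, hxU, hyW, hUT, hWT, hτ, hinj, hmaps, hdet, hiff⟩ :=
    hH.et.loc γ x y hxy
  have hArr : Arr R U τ := ⟨hU, hτ, γ, fun z hz => (hiff z hz (τ z) (hmaps hz)).2 rfl⟩
  have hτx : τ x = y := ((hiff x hxU y hyW).1 hxy).symm
  have hm : MapsTo τ U T := fun z hz => hWT (hmaps hz)
  set J := Jt (fderiv ℂ τ x) with hJdef
  have hJ : J.det ≠ 0 := by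
    rw [hJdef, det_Jt]; exact hdet x hxU
  have hu : IsUnit J.det := isUnit_iff_ne_zero.2 hJ
  have hJH : IsUnit (Jᴴ).det := by
    rw [Matrix.det_conjTranspose]
    exact isUnit_iff_ne_zero.2 (star_ne_zero.2 hJ)
  have hAx : ∀ k, Adf H Q k x = J * (∑ m, J k m • Adf H Q m y) * J⁻¹ := by
    intro k
    have h1 := gam_arrow hWCH hCRV hT hQc hQ.posDef hU hUT hτ hm hdet (hQ.inv U τ hArr) hxU k
    have h2 := gam_arrow hWCH hCRV hT hHc hH.posDef hU hUT hτ hm hdet (hH.inv U τ hArr) hxU k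
    have e0 : Adf H Q k x = Gam Q k x - Gam H k x := rfl
    rw [hτx] at h1 h2
    rw [e0, h1, h2]
    have e1 : (∑ m, J k m • Adf H Q m y) = (∑ m, J k m • Gam Q m y) - ∑ m, J k m • Gam H m y := by
      rw [← Finset.sum_sub_distrib]
      refine Finset.sum_congr rfl fun m _ => ?_
      rw [← smul_sub]
      rfl
    rw [e1]
    noncomm_ring
  have hQx : Q x = J * Q y * Jᴴ := by
    have h1 := form_mat (Q x) (Q (τ x)) (fderiv ℂ τ x) (hQ.inv U τ hArr x hxU)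
    rwa [hτx] at h1
  have hQi : Jᴴ * (Q x)⁻¹ * J = (Q y)⁻¹ := by
    rw [hQx, Matrix.mul_inv_rev, Matrix.mul_inv_rev]
    calc Jᴴ * (Jᴴ⁻¹ * ((Q y)⁻¹ * J⁻¹)) * J = (Jᴴ * Jᴴ⁻¹) * (Q y)⁻¹ * (J⁻¹ * J) := by
          simp only [Matrix.mul_assoc]
      _ = (Q y)⁻¹ := by
          rw [Matrix.mul_nonsing_inv _ hJH, Matrix.nonsing_inv_mul _ hu, Matrix.one_mul,
            Matrix.mul_one]
  have e1 : ∀ z, AQt H Q z =
      (ipW (Q z)⁻¹ (Q z) (fun k => Adf H Q k z) (fun k => Adf H Q k z)).re := fun z => rfl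
  rw [e1 y, e1 x]
  congr 1
  have e2 : ipW (Q x)⁻¹ (Q x) (fun k => Adf H Q k x) (fun k => Adf H Q k x) =
      ipW (Q x)⁻¹ (J * Q y * Jᴴ) (fun k => J * (∑ m, J k m • Adf H Q m y) * J⁻¹)
        (fun k => J * (∑ m, J k m • Adf H Q m y) * J⁻¹) := by
    rw [← hQx]
    congr 1
    · funext k; exact hAx k
    · funext k; exact hAx k
  rw [e2, ipW_conj _ _ _ hJ, ipW_act, hQi]

end Pool.Agent.Helper45.HS
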