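import Pool.Agent.Helper45.HS.CalcC
import Pool.Agent.Helper89.Lin.Phell

/-!
# HS: IPA (algebra of the pairing)
-/

open Complex Metric Set Filter Topology MeasureTheory
open scoped ContDiff ComplexConjugate ComplexOrder Manifold Matrix

namespace Pool.Agent.Helper45.HS

open Pool.Agent.Helper95.Lin Pool.Agent.Helper16.Abund Pool.Agent.Helper92.Orb
  Pool.Agent.Helper10.SP Pool.Agent.Helper95.RK Pool.Agent.Helper57.HS

universe u v

section
variable {n : ℕ} (Q : Matrix (Fin n) (Fin n) ℂ)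

theorem ipA_smul_left (c : ℂ) (X Y : Fin n → Matrix (Fin n) (Fin n) ℂ) :
    ipA Q (fun k => c • X k) Y = c * ipA Q X Y := by
  unfold ipA
  simp only [Matrix.smul_mul, Matrix.trace_smul, smul_eq_mul, Finset.mul_sum]
  refine Finset.sum_congr rfl fun k _ => Finset.sum_congr rfl fun l _ => ?_
  ring

theorem ipA_smul_right (c : ℂ) (X Y : Fin n → Matrix (Fin n) (Fin n) ℂ) :
    ipA Q X (fun k => c • Y k) = conj c * ipA Q X Y := by
  unfold ipA
  simp only [Matrix.conjTranspose_smul, Matrix.smul_mul, Matrix.mul_smul, Matrix.trace_smul,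
    smul_eq_mul, Finset.mul_sum]
  refine Finset.sum_congr rfl fun k _ => Finset.sum_congr rfl fun l _ => ?_
  simp only [RCLike.star_def]
  ring

theorem ipA_sum_left {ι : Type*} (s : Finset ι) (c : ι → ℂ)
    (M : ι → Fin n → Matrix (Fin n) (Fin n) ℂ) (Y : Fin n → Matrix (Fin n) (Fin n) ℂ) :
    ipA Q (fun k => ∑ p ∈ s, c p • M p k) Y = ∑ p ∈ s, c p * ipA Q (M p) Y := by
  classical
  induction s using Finset.induction_on with
  | empty => simp [ipA]
  | insert a s ha ih =>
    simp only [Finset.sum_insert ha]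
    rw [ipA_add_left Q (fun k => c a • M a k) (fun k => ∑ p ∈ s, c p • M p k) Y, ih,
      ipA_smul_left]

theorem ipA_sum_right {ι : Type*} (s : Finset ι) (c : ι → ℂ)
    (M : ι → Fin n → Matrix (Fin n) (Fin n) ℂ) (Y : Fin n → Matrix (Fin n) (Fin n) ℂ) :
    ipA Q Y (fun k => ∑ p ∈ s, c p • M p k) = ∑ p ∈ s, conj (c p) * ipA Q Y (M p) := by
  classical
  induction s using Finset.induction_on with
  | empty => simp [ipA]
  | insert a s ha ih =>
    simp only [Finset.sum_insert ha]
    rw [ipA_add_right Q Y (fun k => c a • M a k) (fun k => ∑ p ∈ s, c p • M p k), ih,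
      ipA_smul_right]

theorem ipA_conj (hQ : Q.PosDef) (X Y : Fin n → Matrix (Fin n) (Fin n) ℂ) :
    conj (ipA Q X Y) = ipA Q Y X := by
  have h1 : Qᴴ = Q := hQ.isHermitian
  have h2 : (Q⁻¹)ᴴ = Q⁻¹ := hQ.inv.isHermitian
  unfold ipA
  rw [map_sum]
  simp only [map_sum, map_mul]
  rw [Finset.sum_comm]
  refine Finset.sum_congr rfl fun k _ => Finset.sum_congr rfl fun l _ => ?_
  congr 1
  · have : (Q⁻¹)ᴴ l k = Q⁻¹ l k := by rw [h2]
    rw [← this, Matrix.conjTranspose_apply]
    rfl
  · have e : conj (Matrix.trace (X l * Q * (Y k)ᴴ * Q⁻¹)) =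
        Matrix.trace ((X l * Q * (Y k)ᴴ * Q⁻¹)ᴴ) := (Matrix.trace_conjTranspose _).symm
    rw [e]
    simp only [Matrix.conjTranspose_mul, Matrix.conjTranspose_conjTranspose, h1, h2]
    rw [Matrix.trace_mul_comm]
    simp only [Matrix.mul_assoc]

end

theorem ipa (hAAPS : Pool.Agent.Helper95.HS.S_AAPS) : S_IPA := by
  intro n Q hQ
  have hpos : ∀ X, (ipA Q X X).im = 0 ∧ 0 ≤ (ipA Q X X).re := fun X =>
    ⟨(hAAPS Q Q X hQ hQ.posSemidef).1, (hAAPS Q Q X hQ hQ.posSemidef).2.1⟩
  refine ⟨fun X Y => ipA_conj Q hQ X Y, fun X X' Y => ⟨ipA_add_left Q X X' Y,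
    ipA_add_right Q Y X X'⟩, fun c X Y => ⟨ipA_smul_left Q c X Y, ipA_smul_right Q c X Y⟩,
    hpos, fun M => ?_⟩
  obtain ⟨S, hS⟩ := Pool.Agent.Helper89.Lin.exists_root hQ.inv.posSemidef
  have hS' : ∀ l k, Q⁻¹ l k = ∑ a, conj (S a l) * S a k := by
    intro l k
    conv_lhs => rw [hS]
    rw [Matrix.mul_apply]
    rfl
  constructor
  · have e : ∑ p, ∑ q, Q⁻¹ q p * ipA Q (M p) (M q) =
        ∑ a, ipA Q (fun k => ∑ p, S a p • M p k) (fun k => ∑ q, S a q • M q k) := by
      have e1 : ∀ a, ipA Q (fun k => ∑ p, S a p • M p k) (fun k => ∑ q, S a q • M q k) =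
          ∑ p, ∑ q, S a p * (conj (S a q) * ipA Q (M p) (M q)) := by
        intro a
        rw [ipA_sum_left]
        refine Finset.sum_congr rfl fun p _ => ?_
        rw [ipA_sum_right, Finset.mul_sum]
      simp only [e1, hS', Finset.sum_mul]
      conv_rhs => rw [Finset.sum_comm]
      refine Finset.sum_congr rfl fun p _ => ?_
      conv_rhs => rw [Finset.sum_comm]
      refine Finset.sum_congr rfl fun q _ => Finset.sum_congr rfl fun a _ => ?_
      ring
    rw [e, Complex.re_sum]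
    exact Finset.sum_nonneg fun a _ => (hpos _).2
  · have e : ∑ p, ∑ q, Q⁻¹ q p * ipA Q (M q) (M p) =
        ∑ a, ipA Q (fun k => ∑ q, conj (S a q) • M q k) (fun k => ∑ p, conj (S a p) • M p k) := by
      have e1 : ∀ a, ipA Q (fun k => ∑ q, conj (S a q) • M q k)
          (fun k => ∑ p, conj (S a p) • M p k) =
          ∑ q, ∑ p, conj (S a q) * (S a p * ipA Q (M q) (M p)) := by
        intro a
        rw [ipA_sum_left]
        refine Finset.sum_congr rfl fun p _ => ?_
        rw [ipA_sum_right, Finset.mul_sum]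
        simp only [Complex.conj_conj]
      simp only [e1, hS', Finset.sum_mul]
      conv_rhs => rw [Finset.sum_comm]
      rw [Finset.sum_comm]
      refine Finset.sum_congr rfl fun q _ => ?_
      conv_rhs => rw [Finset.sum_comm]
      refine Finset.sum_congr rfl fun p _ => Finset.sum_congr rfl fun a _ => ?_
      ring
    rw [e, Complex.re_sum]
    exact Finset.sum_nonneg fun a _ => (hpos _).2

end Pool.Agent.Helper45.HS
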