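import Pool.Agent.Helper45.HS.GoalsC

/-!
# HS: assembly of `S_CALP` and `S_C2E` from the goals of `GoalsC`
-/

open Complex Metric Set Filter Topology MeasureTheory
open scoped ContDiff ComplexConjugate ComplexOrder Manifold Matrix

namespace Pool.Agent.Helper45.HS

open Pool.Agent.Helper95.Lin Pool.Agent.Helper16.Abund Pool.Agent.Helper92.Orb
  Pool.Agent.Helper10.SP Pool.Agent.Helper95.RK Pool.Agent.Helper57.HS

universe u v

theorem ket_chf {n : ℕ} {T : Set (Cn n)} {G : Type u} [Group G] {R : G → Cn n → Cn n → Prop}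
    {H : Cn n → Matrix (Fin n) (Fin n) ℂ} (h : KEt T R H) : CHF H T :=
  ⟨h.smooth, fun x hx => (h.posDef x hx).isHermitian, h.closed⟩

theorem ket_invH {n : ℕ} {T : Set (Cn n)} {G : Type u} [Group G] {R : G → Cn n → Cn n → Prop}
    {H : Cn n → Matrix (Fin n) (Fin n) ℂ} (h : KEt T R H) : InvH R H := h.inv

theorem aqt_nonneg (hIPA : S_IPA) {n : ℕ} {H Q : Cn n → Matrix (Fin n) (Fin n) ℂ} {x : Cn n}
    (hQ : (Q x).PosDef) : 0 ≤ AQt H Q x :=
  (((hIPA (Q x) hQ).2.2.2.1 (fun k => Adf H Q k x)).2)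

/-- Calabi's third order estimate. -/
theorem calp (hIPA : S_IPA) (hCALI : S_CALI.{u}) (hCLI : S_CLI.{u}) (hINVA : S_INVA.{u})
    (hTRMX : S_TRMX.{u}) (hTRLA : S_TRLA) (hTRI : Pool.Agent.Helper95.HS.S_TRI.{u}) :
    S_CALP.{u} := by
  intro n T G _ R H hH C hC b
  obtain ⟨K1, hK1, h1⟩ := hCALI T R H hH C hC b
  obtain ⟨K2, hK2, h2⟩ := hCLI T R H hH C hC b
  set K := max K1 K2 with hKdef
  have hK : 0 < K := lt_max_of_lt_left hK1
  refine ⟨1 + 2 * K + 2 * K ^ 2, 9, by positivity, ?_⟩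
  intro Λ Q η hΛ hQ hη heq hbd hle
  have hyp : HypC T R H C b Λ Q η := ⟨hΛ, hQ, hη, heq, hbd, hle⟩
  have hΛ0 : 0 < Λ := lt_of_lt_of_le one_pos hΛ
  obtain ⟨htr0, h2C⟩ := h2 Λ Q η hyp
  have hT := hH.et.isOpen
  have hS : InvF T R (AQt H Q) := hINVA T R H Q hH hQ
  have ht : InvF T R (fun x => (Matrix.trace (H x * (Q x)⁻¹)).re) :=
    (hTRI T R Q hQ).1 H hH.smooth (ket_invH hH)
  set B := 2 * K * Λ ^ 8 with hB
  have hB0 : 0 < B := by positivity
  have hU : InvF T R (fun x => 1 * AQt H Q x + B * (Matrix.trace (H x * (Q x)⁻¹)).re) := by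
    refine ⟨((contDiffOn_const (c := (1 : ℝ))).mul hS.1).add
      ((contDiffOn_const (c := B)).mul ht.1), fun γ x y hR => ?_⟩
    have e1 := hS.2 γ x y hR
    have e2 := ht.2 γ x y hR
    simp only at e1 e2 ⊢
    rw [e1, e2]
  obtain ⟨x, hxC, hmax, -, hneg⟩ := hTRMX T R Q hQ C hC _ hU
  have hxT := hC.1 hxC
  rw [(hTRLA T hT Q _ _ 1 B hS.1 ht.1 x hxT).2] at hneg
  have hS0 : 0 ≤ AQt H Q x := aqt_nonneg hIPA (hQ.posDef x hxT)
  have i1 := h1 Λ Q η hyp x hxC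
  obtain ⟨i3, i2⟩ := h2C x hxC
  -- weaker forms with `K`
  have j1 : - (K * Λ ^ 7 * (1 + AQt H Q x)) ≤ (trL Q (AQt H Q) x).re := by
    refine le_trans ?_ i1
    have : K1 * Λ ^ 7 * (1 + AQt H Q x) ≤ K * Λ ^ 7 * (1 + AQt H Q x) := by
      gcongr
      exact le_max_left _ _
    linarith
  have j2 : Λ⁻¹ * AQt H Q x - K * Λ ^ 2 ≤
      (trL Q (fun y => (Matrix.trace (H y * (Q y)⁻¹)).re) x).re := by
    refine le_trans ?_ i2
    have : K2 * Λ ^ 2 ≤ K * Λ ^ 2 := by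
      gcongr
      exact le_max_right _ _
    linarith
  have j3 : (Matrix.trace (H x * (Q x)⁻¹)).re ≤ K * Λ := by
    refine le_trans i3 ?_
    gcongr
    exact le_max_right _ _
  have j4 : B * (Λ⁻¹ * AQt H Q x - K * Λ ^ 2) ≤
      B * (trL Q (fun y => (Matrix.trace (H y * (Q y)⁻¹)).re) x).re :=
    mul_le_mul_of_nonneg_left j2 hB0.le
  have j5 : B * (Λ⁻¹ * AQt H Q x - K * Λ ^ 2) =
      K * Λ ^ 7 * (2 * AQt H Q x - 2 * K * Λ ^ 3) := by
    rw [hB]
    field_simp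
    try ring
  have j6 : AQt H Q x ≤ 1 + 2 * K * Λ ^ 3 := by
    have : K * Λ ^ 7 * (AQt H Q x) ≤ K * Λ ^ 7 * (1 + 2 * K * Λ ^ 3) := by
      nlinarith
    exact le_of_mul_le_mul_left this (by positivity)
  intro y hy
  have m1 := hmax y hy
  have m2 := htr0 y hy
  have m3 : AQt H Q y ≤ 1 + 2 * K * Λ ^ 3 + B * (K * Λ) := by
    have := mul_le_mul_of_nonneg_left j3 hB0.le
    have := mul_nonneg hB0.le m2
    linarith
  refine le_trans m3 ?_
  have p1 : (1 : ℝ) ≤ Λ ^ 9 := one_le_pow₀ hΛ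
  have p2 : Λ ^ 3 ≤ Λ ^ 9 := pow_le_pow_right₀ hΛ (by norm_num)
  have p3 : 2 * K * Λ ^ 3 ≤ 2 * K * Λ ^ 9 := by gcongr
  calc 1 + 2 * K * Λ ^ 3 + B * (K * Λ)
      ≤ Λ ^ 9 + 2 * K * Λ ^ 9 + 2 * K ^ 2 * Λ ^ 9 := by
        have : B * (K * Λ) = 2 * K ^ 2 * Λ ^ 9 := by rw [hB]; ring
        linarith
    _ = (1 + 2 * K + 2 * K ^ 2) * Λ ^ 9 := by ring

/-! ## The estimates of order zero and two -/

theorem exists_bd {n : ℕ} {C : Set (Cn n)} (hC : IsCompact C) {ι : Type*} [Fintype ι]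
    (f : ι → Cn n → ℂ) (hf : ∀ i, ContinuousOn (f i) C) :
    ∃ κ : ℝ, 1 ≤ κ ∧ ∀ i, ∀ x ∈ C, ‖f i x‖ ≤ κ := by
  have : ∀ i, ∃ κ : ℝ, ∀ x ∈ C, ‖f i x‖ ≤ κ := fun i => hC.exists_bound_of_continuousOn (hf i)
  choose κ hκ using this
  refine ⟨1 + ∑ i, |κ i|, ?_, fun i x hx => ?_⟩
  · have : 0 ≤ ∑ i, |κ i| := Finset.sum_nonneg fun i _ => abs_nonneg _
    linarith
  · have h1 := hκ i x hx
    have h2 : |κ i| ≤ ∑ i, |κ i| :=
      Finset.single_le_sum (f := fun i => |κ i|) (fun i _ => abs_nonneg _) (Finset.mem_univ i)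
    have h3 := le_abs_self (κ i)
    linarith

theorem mle_mono {n : ℕ} {A B : Matrix (Fin n) (Fin n) ℂ} (hB : B.PosSemidef) {s t : ℝ}
    (hst : s ≤ t) (h : MLe A ((s : ℂ) • B)) : MLe A ((t : ℂ) • B) := by
  unfold MLe at h ⊢
  have e : (t : ℂ) • B - A = ((s : ℂ) • B - A) + (((t - s : ℝ) : ℂ)) • B := by
    push_cast
    rw [sub_smul]
    abel
  rw [e]
  refine h.add (hB.smul ?_)
  exact_mod_cast sub_nonneg.2 hst

/-- The estimates of order zero and two. -/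
theorem c2e (hC0E : S_C0E.{u}) (hRHOE : S_RHOE.{u}) (hLAL : S_LAL) (hLOGT : S_LOGT)
    (hTRMX : S_TRMX.{u}) (hTRLA : S_TRLA) (hTRI : Pool.Agent.Helper95.HS.S_TRI.{u})
    (hCRV : Pool.Agent.Helper95.HS.S_CRV) (hCMP : Pool.Agent.Helper95.HS.S_CMP.{u}) :
    S_C2E.{u} := by
  intro n T G _ R H X hH hX C hC b
  obtain ⟨Λ₀, hΛ₀, h0⟩ := hC0E T R H X hH hX C hC |b|
  have hT := hH.et.isOpen
  rcases Nat.eq_zero_or_pos n with hn | hn
  · subst hn
    refine ⟨Λ₀, hΛ₀, fun f w hf hfb hw x hx => ⟨?_, ?_, ?_⟩⟩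
    · exact (h0 f w hf (fun x hx => (hfb x hx).1.trans (le_abs_self b)) hw x hx).2
    · unfold MLe
      rw [Subsingleton.elim ((Λ₀ : ℂ) • (X x + LM w x) - H x) 0]
      exact Matrix.PosSemidef.zero
    · unfold MLe
      rw [Subsingleton.elim ((Λ₀ : ℂ) • H x - (X x + LM w x)) 0]
      exact Matrix.PosSemidef.zero
  -- bounds on `C`
  have hHs : SmM H T := hH.smooth
  have hHi : SmM (fun x => (H x)⁻¹) T := hHs.inv fun x hx => posDef_det (hH.posDef x hx)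
  obtain ⟨hcrv, -, hrho, -⟩ := hCRV T hT H (ket_chf hH) hH.posDef
  obtain ⟨κ₁, hκ₁, hb₁⟩ := exists_bd hC.2.1 (fun (i : Fin n × Fin n) x => H x i.1 i.2)
    fun i => ((hHs i.1 i.2).continuousOn).mono hC.1
  obtain ⟨κ₂, hκ₂, hb₂⟩ := exists_bd hC.2.1 (fun (i : Fin n × Fin n) x => (H x)⁻¹ i.1 i.2)
    fun i => ((hHi i.1 i.2).continuousOn).mono hC.1
  obtain ⟨κ₃, hκ₃, hb₃⟩ := exists_bd hC.2.1 (fun (i : Fin n × Fin n) x => X x i.1 i.2)
    fun i => ((hX.smooth i.1 i.2).continuousOn).mono hC.1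
  obtain ⟨κ₄, hκ₄, hb₄⟩ := exists_bd hC.2.1 (fun (i : Fin n × Fin n) x => rho H x i.1 i.2)
    fun i => ((hrho i.1 i.2).continuousOn).mono hC.1
  obtain ⟨κ₅, hκ₅, hb₅⟩ := exists_bd hC.2.1
    (fun (i : (Fin n × Fin n) × (Fin n × Fin n)) x => crv H x i.1.1 i.1.2 i.2.1 i.2.2)
    fun i => ((hcrv i.1.1 i.1.2 i.2.1 i.2.2).continuousOn).mono hC.1
  set κ := κ₁ + κ₂ with hκ
  have hκ1 : 1 ≤ κ := by linarith
  obtain ⟨c, hc1, hLA⟩ := hLAL n κ hκ1
  obtain ⟨r, hr, hXH⟩ := hCMP T R H X hH hX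
  set y := κ₃ + κ₄ + κ₅ + |b| with hy
  have hb0 : 0 ≤ |b| := abs_nonneg b
  have hy0 : 0 ≤ y := by linarith
  set A := (2 * c * y + 1) / r with hA
  have hA0 : 0 ≤ A := by positivity
  have hnn : (0 : ℝ) ≤ n := Nat.cast_nonneg n
  set Λ₁ := (1 + A * n) * Real.exp (2 * A * Λ₀) with hΛ₁
  have hΛ₁0 : 0 ≤ Λ₁ := by positivity
  set d := Real.exp (Λ₀ + |b|) with hd
  have hd0 : 0 ≤ d := (Real.exp_pos _).le
  set Λ₂ := d * (1 + Λ₁) ^ n with hΛ₂
  have hΛ₂0 : 0 ≤ Λ₂ := by positivity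
  refine ⟨Λ₀ + Λ₁ + Λ₂, by linarith, ?_⟩
  intro f w hf hfb hw
  have h0' := h0 f w hf (fun x hx => (hfb x hx).1.trans (le_abs_self b)) hw
  obtain ⟨hwI, hQ, hMA⟩ := hw
  obtain ⟨hηs, hηe⟩ := hRHOE T R H X hH hX f w hf ⟨hwI, hQ, hMA⟩
  set Q : Cn n → Matrix (Fin n) (Fin n) ℂ := fun x => X x + LM w x with hQdef
  set η : Cn n → Matrix (Fin n) (Fin n) ℂ := fun x => X x - LM f x - rho H x with hηdef
  have heq : ∀ x ∈ T, rho Q x = Q x - η x := fun x hx => hηe x hx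
  set t : Cn n → ℝ := fun x => (Matrix.trace (H x * (Q x)⁻¹)).re with htdef
  have htI : InvF T R t := (hTRI T R Q hQ).1 H hH.smooth (ket_invH hH)
  have hLAx := fun x (hx : x ∈ T) => hLA (H x) (Q x) (hH.posDef x hx) (hQ.posDef x hx)
  have htpos : ∀ x ∈ T, 0 < t x := fun x hx => (hLAx x hx).1.2 hn
  obtain ⟨hlogs, hlog⟩ := hLOGT hn T hT H Q η (ket_chf hH) hH.posDef (ket_chf hQ) hQ.posDef hηs heq
  have hlI : InvF T R (fun x => Real.log (t x)) := by
    refine ⟨hlogs, fun γ x y' hR => ?_⟩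
    have := htI.2 γ x y' hR
    simp only at this ⊢
    rw [this]
  have hU : InvF T R (fun x => 1 * Real.log (t x) + (-A) * w x) := by
    refine ⟨((contDiffOn_const (c := (1 : ℝ))).mul hlI.1).add
      ((contDiffOn_const (c := -A)).mul hwI.1), fun γ x y' hR => ?_⟩
    have e1 := hlI.2 γ x y' hR
    have e2 := hwI.2 γ x y' hR
    simp only at e1 e2 ⊢
    rw [e1, e2]
  obtain ⟨x, hxC, hmax, -, hneg⟩ := hTRMX T R Q hQ C hC _ hU
  have hxT := hC.1 hxC
  rw [(hTRLA T hT Q _ _ 1 (-A) hlI.1 hwI.1 x hxT).2] at hneg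
  have hx1 := hlog x hxT
  obtain ⟨-, -, hLb, -, hLr⟩ := hLAx x hxT
  have hEB1 : EB (H x) κ := fun i j => (hb₁ (i, j) x hxC).trans (by linarith)
  have hEB2 : EB (H x)⁻¹ κ := fun i j => (hb₂ (i, j) x hxC).trans (by linarith)
  obtain ⟨hLb1, hLb2⟩ := hLb hEB1 hEB2 y hy0
  have hηb : EB (η x) y := by
    intro i j
    have e : η x i j = X x i j - LM f x i j - rho H x i j := rfl
    rw [e]
    have n1 := norm_sub_le (X x i j - LM f x i j) (rho H x i j)
    have n2 := norm_sub_le (X x i j) (LM f x i j)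
    have n3 := hb₃ (i, j) x hxC
    have n4 := hb₄ (i, j) x hxC
    have n5 := ((hfb x hxC).2 i j).trans (le_abs_self b)
    simp only at n3 n4
    linarith
  have q1 := hLb1 (η x) hηb
  have q2 := hLb2 (fun i j k l => crv H x i j k l) fun i j k l =>
    (hb₅ ((i, j), (k, l)) x hxC).trans (by linarith)
  have q1' : - (c * y * t x ^ 2) ≤ (Matrix.trace (η x * (Q x)⁻¹ * H x * (Q x)⁻¹)).re := by
    have := (Complex.abs_re_le_norm (Matrix.trace (η x * (Q x)⁻¹ * H x * (Q x)⁻¹))).trans q1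
    exact (abs_le.1 this).1
  have q2' : KKt H Q x ≤ c * y * t x ^ 2 := by
    have e : KKt H Q x = (∑ i, ∑ j, ∑ k, ∑ l, (Q x)⁻¹ j i * (Q x)⁻¹ l k * crv H x i j k l).re := rfl
    rw [e]
    exact (Complex.re_le_norm _).trans q2
  have htx := htpos x hxT
  have s1 : -1 - 2 * c * y * t x ≤ (trL Q (fun y => Real.log (t y)) x).re := by
    have : t x * (-1 - 2 * c * y * t x) ≤ t x * (trL Q (fun y => Real.log (t y)) x).re := by
      have e1 : t x * (-1 - 2 * c * y * t x) = - t x - c * y * t x ^ 2 - c * y * t x ^ 2 := by ring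
      rw [e1]
      have e2 := hx1
      simp only [ge_iff_le] at e2
      refine le_trans ?_ e2
      linarith
    exact le_of_mul_le_mul_left this htx
  have s2 : (trL Q w x).re ≤ n - r * t x := by
    have e1 : trL Q w x = Matrix.trace ((Q x)⁻¹ * LM w x) := rfl
    have e2 : LM w x = Q x - X x := by
      rw [hQdef]
      simp
    have e3 : (Q x)⁻¹ * Q x = 1 := by
      exact Matrix.nonsing_inv_mul _ (isUnit_iff_ne_zero.2 (posDef_det (hQ.posDef x hxT)))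
    rw [e1, e2, mul_sub, e3, Matrix.trace_sub, Matrix.trace_one, Matrix.trace_mul_comm]
    have e4 := hLr (X x) r (hXH x hxT)
    simp only [Fintype.card_fin, Complex.sub_re, Complex.natCast_re]
    linarith
  have s3 : t x ≤ 1 + A * n := by
    have e1 : A * r = 2 * c * y + 1 := by rw [hA]; field_simp
    have e2 : A * (trL Q w x).re ≤ A * (n - r * t x) := mul_le_mul_of_nonneg_left s2 hA0
    have e3 : A * (n - r * t x) = A * n - (2 * c * y + 1) * t x := by rw [← e1]; ring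
    nlinarith
  -- the bound for `t`
  have htb : ∀ z ∈ T, t z ≤ Λ₁ := by
    intro z hz
    have m1 := hmax z hz
    have u1 := (h0' z hz).2
    have u2 := (h0' x hxT).2
    rw [abs_le] at u1 u2
    have m2 : Real.log (t z) ≤ Real.log (1 + A * n) + 2 * A * Λ₀ := by
      have l1 : Real.log (t x) ≤ Real.log (1 + A * n) := Real.log_le_log htx s3
      have l2 : A * w z ≤ A * Λ₀ := mul_le_mul_of_nonneg_left u1.2 hA0
      have l3 : A * (-Λ₀) ≤ A * w x := mul_le_mul_of_nonneg_left u2.1 hA0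
      linarith
    have hpos : 0 < 1 + A * n := lt_of_lt_of_le htx s3
    calc t z = Real.exp (Real.log (t z)) := (Real.exp_log (htpos z hz)).symm
      _ ≤ Real.exp (Real.log (1 + A * n) + 2 * A * Λ₀) := Real.exp_le_exp.2 m2
      _ = Λ₁ := by rw [Real.exp_add, Real.exp_log hpos]
  intro z hz
  obtain ⟨-, hz1, -, hz2, -⟩ := hLAx z hz
  refine ⟨(h0' z hz).2.trans (by linarith), ?_, ?_⟩
  · exact mle_mono (hQ.posDef z hz).posSemidef ((htb z hz).trans (by linarith)) hz1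
  · have hdet : (Q z).det.re ≤ d * (H z).det.re := by
      have e := hMA z hz
      have hdH : 0 ≤ (H z).det.re := by
        have := (hH.posDef z hz).det_pos
        exact (Complex.pos_iff.1 this).1.le
      have e2 : w z + f z ≤ Λ₀ + |b| := by
        have u1 := (abs_le.1 (h0' z hz).2).2
        have u2 := (abs_le.1 (h0' z hz).1).2
        linarith
      calc (Q z).det.re = Real.exp (w z + f z) * (H z).det.re := e
        _ ≤ d * (H z).det.re := mul_le_mul_of_nonneg_right (Real.exp_le_exp.2 e2) hdH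
    refine mle_mono (hH.posDef z hz).posSemidef ?_ (hz2 d hd0 hdet)
    have e1 : d * (1 + t z) ^ n ≤ Λ₂ := by
      rw [hΛ₂]
      have := htb z hz
      have h0t := (htpos z hz).le
      gcongr
    exact e1.trans (by linarith)

end Pool.Agent.Helper45.HS
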