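import Pool.Agent.Helper95.HS.GoalsB
import Pool.Agent.Helper15.HS.GoalsC
import Pool.Agent.Helper57.HS.DefsC
import Pool.Agent.Helper45.HS.MatC

/-!
# HS: goals for `S_CALP` (Calabi's third order estimate) and `S_C2E` (estimates of order 0 and 2)

`cd k = 2 ∂_k`, `cdb k = 2 ∂b_k`, `D_k := cdM k`, `Db_k := cdbM k`. The calculus of `cdM`, `cdbM` (product rule, inverse,
conjugate transpose, commutation, smoothness `SmM`) is PROVED in `Pool/Agent/Helper45/HS/MatC.lean` (`cdM_mul`,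
`cdM_inv`, `cdM_conjTranspose`, `cdM_cdbM`, ...). The goals `S_CRV`, `S_AAPS`, `S_CHN`, `S_MAXF`, `S_TRC`, `S_CMP`, `S_KETP`, `S_TRI`
of `Helper95/HS`, `S_CL`, `S_IFN` of `Helper15/HS` and the goals of `Helper10/SP` are proved separately and may be used as
hypotheses `(h : S_...)`. `SmM X W`: the entries of `X` are smooth on `W`.
-/

open Complex Metric Set Filter Topology MeasureTheory
open scoped ContDiff ComplexConjugate ComplexOrder Manifold Matrix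

namespace Pool.Agent.Helper45.HS

open Pool.Agent.Helper95.Lin Pool.Agent.Helper16.Abund Pool.Agent.Helper92.Orb
  Pool.Agent.Helper10.SP Pool.Agent.Helper95.RK Pool.Agent.Helper57.HS

universe u v

/-! ## Endomorphism valued forms -/

/-- The pairing of endomorphism valued `(1,0)`-forms `X`, `Y` in the metric `Q`. -/
noncomputable def ipA {n : ℕ} (Q : Matrix (Fin n) (Fin n) ℂ)
    (X Y : Fin n → Matrix (Fin n) (Fin n) ℂ) : ℂ :=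
  ∑ k, ∑ l, Q⁻¹ l k * Matrix.trace (X k * Q * (Y l)ᴴ * Q⁻¹)

/-- The covariant derivative in the direction `p` of the endomorphism valued `(1,0)`-form `X` for the
connection `Γ`. -/
noncomputable def nab {n : ℕ} (Γ : Fin n → Cn n → Matrix (Fin n) (Fin n) ℂ) (p : Fin n)
    (X : Fin n → Cn n → Matrix (Fin n) (Fin n) ℂ) (k : Fin n) (x : Cn n) :
    Matrix (Fin n) (Fin n) ℂ :=
  cdM p (X k) x - (Γ p x * X k x - X k x * Γ p x) - ∑ m, Γ p x k m • X m x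

/-- The curvature endomorphism `Rm_kl = - Db_l Γ_k`. -/
noncomputable def Rme {n : ℕ} (H : Cn n → Matrix (Fin n) (Fin n) ℂ) (k l : Fin n) (x : Cn n) :
    Matrix (Fin n) (Fin n) ℂ := - cdbM l (Gam H k) x

/-- The action of `Z` on endomorphism valued `(1,0)`-forms. -/
noncomputable def actZ {n : ℕ} (Z : Matrix (Fin n) (Fin n) ℂ)
    (A : Fin n → Matrix (Fin n) (Fin n) ℂ) (l : Fin n) : Matrix (Fin n) (Fin n) ℂ :=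
  (Z * A l - A l * Z) + ∑ m, Z l m • A m

/-- The form `T_k` in the formula for the Laplacian of `AQt`. -/
noncomputable def TAk {n : ℕ} (H Q η : Cn n → Matrix (Fin n) (Fin n) ℂ) (k : Fin n) (x : Cn n) :
    Matrix (Fin n) (Fin n) ℂ :=
  -((cdM k η x - Gam Q k x * η x) * (Q x)⁻¹) +
    ∑ p, ∑ q, (Q x)⁻¹ q p • (nab (Gam H) p (fun m => Rme H m q) k x -
      (Adf H Q p x * Rme H k q x - Rme H k q x * Adf H Q p x) -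
      ∑ m, Adf H Q p x k m • Rme H m q x)

/-- All entries of `M` are bounded by `c`. -/
def EB {n : ℕ} (M : Matrix (Fin n) (Fin n) ℂ) (c : ℝ) : Prop := ∀ i j, ‖M i j‖ ≤ c

/-- IPA. Algebra of the pairing. USES: AAPS (of `Helper95/HS`; its first two items with `Y = Q`).
PROOF. (1) `conj (Q⁻¹ l k) = Q⁻¹ k l` and `conj (tr (X k Q (Y l)ᴴ Q⁻¹)) = tr (Q⁻¹ Y l Q (X k)ᴴ) = tr (Y l Q (X k)ᴴ Q⁻¹)`; swap the sums. (2), (3)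
linearity, clear. (4) is `AAPS`. (5) Let `Q⁻¹ = Sᴴ S`, so `Q⁻¹ l k = ∑ a, conj (S a l) S a k` (`PosDef.inv`, square root, or
`Matrix.posSemidef_iff_eq_conjTranspose_mul_self`). Then `∑ p q, Q⁻¹ q p ipA (M p) (M q) = ∑ a, ipA N_a N_a` with `N_a k := ∑ p, S a p • M p k`,
and `∑ p q, Q⁻¹ q p ipA (M q) (M p) = ∑ a, ipA N'_a N'_a` with `N'_a k := ∑ q, conj (S a q) • M q k`; use (4). -/
def S_IPA : Prop := ∀ {n : ℕ} (Q : Matrix (Fin n) (Fin n) ℂ), Q.PosDef →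
  (∀ X Y, conj (ipA Q X Y) = ipA Q Y X) ∧
  (∀ X X' Y, ipA Q (fun k => X k + X' k) Y = ipA Q X Y + ipA Q X' Y ∧
    ipA Q Y (fun k => X k + X' k) = ipA Q Y X + ipA Q Y X') ∧
  (∀ (c : ℂ) (X Y), ipA Q (fun k => c • X k) Y = c * ipA Q X Y ∧
    ipA Q X (fun k => c • Y k) = conj c * ipA Q X Y) ∧
  (∀ X, (ipA Q X X).im = 0 ∧ 0 ≤ (ipA Q X X).re) ∧
  ∀ M : Fin n → Fin n → Matrix (Fin n) (Fin n) ℂ,
    0 ≤ (∑ p, ∑ q, Q⁻¹ q p * ipA Q (M p) (M q)).re ∧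
    0 ≤ (∑ p, ∑ q, Q⁻¹ q p * ipA Q (M q) (M p)).re

/-- IPD. Derivatives of the pairing. USES: CRV, MatC.
PROOF. `G_p := Gam Q p`. `D_p Q = G_p Q`, `Db_q Q = Q G_qᴴ` (`CRV`), so `D_p Q⁻¹ = - Q⁻¹ G_p`, `Db_q Q⁻¹ = - G_qᴴ Q⁻¹` (`cdM_inv`), `D_p (Y_lᴴ) =
(Db_p Y_l)ᴴ`. `cd p` of `∑ Q⁻¹ l k tr (X_k Q Y_lᴴ Q⁻¹)`: the derivative of `Q⁻¹ l k` gives `- ∑ m, Q⁻¹ l m (G_p)_mk tr (X_k Q Y_lᴴ Q⁻¹)`, that is
`- ∑ Q⁻¹ l k tr ((∑ m, (G_p)_km X_m) Q Y_lᴴ Q⁻¹)` after renaming; the trace gives `tr (D_p X_k Q Y_lᴴ Q⁻¹) + tr (X_k G_p Q Y_lᴴ Q⁻¹) + tr (X_k Q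
(Db_p Y_l)ᴴ Q⁻¹) - tr (X_k Q Y_lᴴ Q⁻¹ G_p)`, and `tr (X_k Q Y_lᴴ Q⁻¹ G_p) = tr (G_p X_k Q Y_lᴴ Q⁻¹)`. The second formula in the same way, or
by conjugation. (The hypothesis on `Q`: only smooth, Hermitian and positive definite is used.) -/
def S_IPD : Prop := ∀ {n : ℕ} (W : Set (Cn n)), IsOpen W →
  ∀ Q : Cn n → Matrix (Fin n) (Fin n) ℂ, CHF Q W → (∀ x ∈ W, (Q x).PosDef) →
  ∀ X Y : Fin n → Cn n → Matrix (Fin n) (Fin n) ℂ, (∀ k, SmM (X k) W) → (∀ k, SmM (Y k) W) →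
  ContDiffOn ℝ ∞ (fun x => ipA (Q x) (fun k => X k x) (fun k => Y k x)) W ∧
  (∀ p k, SmM (nab (Gam Q) p X k) W) ∧ ∀ x ∈ W, ∀ p,
  cd p (fun y => ipA (Q y) (fun k => X k y) (fun k => Y k y)) x =
    ipA (Q x) (fun k => nab (Gam Q) p X k x) (fun k => Y k x) +
    ipA (Q x) (fun k => X k x) (fun k => cdbM p (Y k) x) ∧
  cdb p (fun y => ipA (Q y) (fun k => X k y) (fun k => Y k y)) x =
    ipA (Q x) (fun k => cdbM p (X k) x) (fun k => Y k x) +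
    ipA (Q x) (fun k => X k x) (fun k => nab (Gam Q) p Y k x)

/-- COMM. The commutator of the derivatives. USES: CRV (smoothness of `Gam Q k`), MatC.
PROOF. Differentiate `nab (Gam Q) q Y l = D_q Y_l - (G_q Y_l - Y_l G_q) - ∑ m, (G_q)_lm Y_m` with `Db_p` (product rule; the entry
`(G_q)_lm` is a smooth function, `Db_p` of it is `(Db_p G_q)_lm = - (Rme Q q p)_lm`), and `Db_p D_q Y_l = D_q Db_p Y_l`. -/
def S_COMM : Prop := ∀ {n : ℕ} (W : Set (Cn n)), IsOpen W →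
  ∀ Q : Cn n → Matrix (Fin n) (Fin n) ℂ, CHF Q W → (∀ x ∈ W, (Q x).PosDef) →
  ∀ Y : Fin n → Cn n → Matrix (Fin n) (Fin n) ℂ, (∀ k, SmM (Y k) W) → ∀ x ∈ W, ∀ p q l,
  cdbM p (nab (Gam Q) q Y l) x = nab (Gam Q) q (fun m => cdbM p (Y m)) l x +
    actZ (Rme Q q p x) (fun m => Y m x) l

/-- BIA. The contracted Bianchi identity. USES: CRV, MatC.
PROOF. `G_k := Gam Q k`. (a) `D_p G_k - D_k G_p = G_p G_k - G_k G_p`: `D_p (D_k Q Q⁻¹) = D_p D_k Q Q⁻¹ - G_k G_p` (`D_p Q⁻¹ = - Q⁻¹ G_p`), and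
`D_p D_k Q = D_k D_p Q`. (b) Apply `- Db_q` on `W` (`Db_q D_p = D_p Db_q`): `D_p Rm_kq - D_k Rm_pq = (Rm_pq G_k + G_p Rm_kq) - (Rm_kq G_p + G_k
Rm_pq)`, that is `D_p Rm_kq - (G_p Rm_kq - Rm_kq G_p) = D_k Rm_pq - (G_k Rm_pq - Rm_pq G_k)`. (c) `(G_p)_km = (G_k)_pm` (`CRV`). (d) `Z :=
∑ p q, Q⁻¹ q p Rm_pq`; `(Z Q)_ij = ∑ Q⁻¹ l k crv i j k l = - rho_ij` (`CRV`), so `Z = - rho Q⁻¹ = - (Q - η) Q⁻¹ = - 1 + η Q⁻¹` on `W`. (e) The left side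
is `∑ Q⁻¹ q p (D_k Rm_pq - (G_k Rm_pq - Rm_pq G_k)) - ∑ Q⁻¹ q p (G_k)_pm Rm_mq`, and `D_k Z = ∑ Q⁻¹ q p D_k Rm_pq - ∑ Q⁻¹ q m (G_k)_mp Rm_pq`;
so it is `D_k Z - (G_k Z - Z G_k)`. With `Z = -1 + η Q⁻¹`: `D_k Z = D_k η Q⁻¹ - η Q⁻¹ G_k`, the result is `(D_k η - G_k η) Q⁻¹`. -/
def S_BIA : Prop := ∀ {n : ℕ} (W : Set (Cn n)), IsOpen W →
  ∀ Q η : Cn n → Matrix (Fin n) (Fin n) ℂ, CHF Q W → (∀ x ∈ W, (Q x).PosDef) → SmM η W →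
  (∀ x ∈ W, rho Q x = Q x - η x) → ∀ x ∈ W,
  (∑ p, ∑ q, (Q x)⁻¹ q p • Rme Q p q x = -1 + η x * (Q x)⁻¹) ∧
  ∀ k, ∑ p, ∑ q, (Q x)⁻¹ q p • nab (Gam Q) p (fun m => Rme Q m q) k x =
    (cdM k η x - Gam Q k x * η x) * (Q x)⁻¹

/-- LAPS. Calabi's formula (as an inequality). USES: WIRT, CRV, IPA, IPD, COMM, BIA, MatC.
PROOF. `A_k := Adf H Q k = G_k - Γ_k` (smooth, `CRV`), `f := ipA Q A A` is real (`IPA`), `AQt = f.re`, so `trL Q (AQt) = ∑ p q, Q⁻¹ q p cd p (cdb q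
f)` (`trL Q u = ∑ Q⁻¹ q p LM u p q`; two functions which agree on the open set `W` have the same derivatives in `W`). `IPD` twice:
`cdb q f = ipA (Db_q A) A + ipA A (∇_q A)`, `cd p (cdb q f) = ipA (∇_p Db_q A) A + ipA (Db_q A) (Db_p A) + ipA (∇_p A) (∇_q A) + ipA A (Db_p ∇_q
A)`, `∇_p := nab (Gam Q) p`. The sums `∑ Q⁻¹ q p ipA (Db_q A) (Db_p A)`, `∑ Q⁻¹ q p ipA (∇_p A) (∇_q A)` have real part `≥ 0` (`IPA`). First term: `∑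
Q⁻¹ q p ipA (∇_p Db_q A) A = ipA T A`, `T_k := ∑ Q⁻¹ q p (∇_p Db_q A)_k`, `Db_q A_m = - Rm_mq(Q) + Rm_mq(H)`. By `BIA` the part of `Q` is
`- (D_k η - G_k η) Q⁻¹`, and for the part of `H` use `G_p = Γ_p + A_p`: `(nab (Gam Q) p Rm_·q(H))_k = (nab (Gam H) p Rm_·q(H))_k - (A_p Rm_kq - Rm_kq
A_p) - ∑ m, (A_p)_km Rm_mq`. So `T_k = TAk H Q η k`. Last term: `COMM`: `Db_p ∇_q A = ∇_q Db_p A + actZ (Rme Q q p) A`, and `ipA A (·)` is conjugate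
linear with `conj (Q⁻¹ q p) = Q⁻¹ p q`: `∑ Q⁻¹ q p ipA A (∇_q Db_p A) = ipA A T` (rename `p, q`) and `∑ Q⁻¹ q p ipA A (actZ (Rme Q q p) A) = ipA A (actZ
(∑ Q⁻¹ p q Rme Q q p) A) = ipA A (actZ (-1 + η Q⁻¹) A)` (`BIA`). Real parts: `ipA A T = conj (ipA T A)`. -/
def S_LAPS : Prop := ∀ {n : ℕ} (W : Set (Cn n)), IsOpen W →
  ∀ H Q η : Cn n → Matrix (Fin n) (Fin n) ℂ, CHF H W → (∀ x ∈ W, (H x).PosDef) → CHF Q W →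
  (∀ x ∈ W, (Q x).PosDef) → SmM η W → (∀ x ∈ W, rho Q x = Q x - η x) →
  ContDiffOn ℝ ∞ (AQt H Q) W ∧ ∀ x ∈ W,
  2 * (ipA (Q x) (fun k => TAk H Q η k x) (fun k => Adf H Q k x)).re +
    (ipA (Q x) (fun k => Adf H Q k x)
      (fun l => actZ (-1 + η x * (Q x)⁻¹) (fun k => Adf H Q k x) l)).re ≤
  (trL Q (AQt H Q) x).re

/-- IPB. Bounds for the pairing. USES: AAPS (for the monotonicity in (4) only).
PROOF. For a positive semidefinite `M`, `|M i j| ≤ max_i (M i i).re`; so `Q ≤ Λ H` gives `|Q i j| ≤ Λ κ`, and `Q⁻¹ ≤ Λ H⁻¹` (inversion is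
antitone: from `H ≤ Λ Q`; e.g. `S` with `H = S Sᴴ`, `S⁻¹ Q S⁻ᴴ` has eigenvalues in `[1/Λ, Λ]`) gives `|Q⁻¹ i j| ≤ Λ κ`. (2) expand
the sums: `n^2` terms `Q⁻¹ l k tr (..)`, the trace has `n^4` terms, `|ipA| ≤ n^6 (Λ κ)^3 a b`. (3) `Q ≤ n κ Λ` (trace) so `Q⁻¹ ≥ (n κ
Λ)⁻¹` and `Q ≥ (n κ Λ)⁻¹` (from `Q⁻¹ ≤ n κ Λ`) as Hermitian matrices; `Q⁻¹ = r 1 + (Q⁻¹ - r 1)`, `r := (n κ Λ)⁻¹`, and `∑ k l, B l k tr (X_k Q
(X_l)ᴴ Q⁻¹) ≥ 0` for positive semidefinite `B` (write `B l k = ∑ a, conj (s a l) s a k`); so `ipA X X ≥ r ∑ k, tr (X_k Q X_kᴴ Q⁻¹) ≥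
r³ ∑ k, tr (X_k X_kᴴ)` (`tr (M N) ≥ 0` for positive semidefinite `M, N`). (4) the middle factor: `Λ H - Q ≥ 0` and positivity of
`∑ Q⁻¹ l k tr (X_k Y X_lᴴ Q⁻¹)` in `Y ≥ 0` (`AAPS`). -/
def S_IPB : Prop := ∀ (n : ℕ) (κ : ℝ), 1 ≤ κ → ∃ c : ℝ, 1 ≤ c ∧ ∀ (Λ : ℝ)
  (H Q : Matrix (Fin n) (Fin n) ℂ), 1 ≤ Λ → H.PosDef → Q.PosDef → EB H κ → EB H⁻¹ κ →
  MLe H ((Λ : ℂ) • Q) → MLe Q ((Λ : ℂ) • H) →
  EB Q (c * Λ) ∧ EB Q⁻¹ (c * Λ) ∧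
  (∀ (X Y : Fin n → Matrix (Fin n) (Fin n) ℂ) (a b : ℝ), 0 ≤ a → 0 ≤ b →
    (∀ k, EB (X k) a) → (∀ k, EB (Y k) b) →
    ‖ipA Q X Y‖ ≤ c * Λ ^ 3 * a * b) ∧
  ∀ X : Fin n → Matrix (Fin n) (Fin n) ℂ,
    (∀ k i j, ‖X k i j‖ ^ 2 ≤ c * Λ ^ 3 * (ipA Q X X).re) ∧
    (ipA Q X X).re ≤ Λ * (∑ k, ∑ l, Q⁻¹ l k * Matrix.trace (X k * H * (X l)ᴴ * Q⁻¹)).re

/-- The hypotheses of the estimates. -/
structure HypC {n : ℕ} (T : Set (Cn n)) {G : Type u} [Group G] (R : G → Cn n → Cn n → Prop)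
    (H : Cn n → Matrix (Fin n) (Fin n) ℂ) (C : Set (Cn n)) (b Λ : ℝ)
    (Q η : Cn n → Matrix (Fin n) (Fin n) ℂ) : Prop where
  one_le : 1 ≤ Λ
  ket : KEt T R Q
  sm : SmM η T
  eq : ∀ x ∈ T, rho Q x = Q x - η x
  bd : ∀ x ∈ C, ∀ i j, ‖η x i j‖ ≤ b ∧ ∀ l, ‖cdM l η x i j‖ ≤ b
  le : ∀ x ∈ T, MLe (H x) ((Λ : ℂ) • Q x) ∧ MLe (Q x) ((Λ : ℂ) • H x)

/-- CALI. Calabi's inequality on the compact set. USES: LAPS, IPB, CRV, MatC.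
PROOF. On the compact set `C ⊆ T` the continuous functions `H i j`, `H⁻¹ i j`, `Gam H k i j`, `Rme H k q i j`, `(nab (Gam H) p (Rme H · q) k) i j`
are bounded by some `κ ≥ 1` (`CRV`: `Gam H` is smooth; `MatC`), and `b ≤ κ`. Let `c` be the constant of `IPB`, `S := AQt H Q x`
`= (ipA Q A A).re`, `a := max |A_k i j|`, so `a² ≤ c Λ³ S`. `G_k = A_k + Γ_k`, so `|TAk| ≤ C₁ Λ (1 + a)` (`|Q⁻¹| ≤ c Λ`; `C₁` depends on `n, κ, c`),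
`|actZ (-1 + η Q⁻¹) A| ≤ C₂ Λ a`. `LAPS` and `IPB` (2): `(trL Q S).re ≥ - 2 c Λ³ C₁ Λ (1 + a) a - c Λ³ a C₂ Λ a ≥ - C₃ Λ⁴ (1 + a²) ≥ - C₃ Λ⁴ (1 + c Λ³
S) ≥ - K Λ⁷ (1 + S)`. -/
def S_CALI : Prop := ∀ {n : ℕ} (T : Set (Cn n)) {G : Type u} [Group G]
  (R : G → Cn n → Cn n → Prop) (H : Cn n → Matrix (Fin n) (Fin n) ℂ), KEt T R H →
  ∀ C, FunC T R C → ∀ b : ℝ, ∃ K : ℝ, 0 < K ∧ ∀ (Λ : ℝ)
    (Q η : Cn n → Matrix (Fin n) (Fin n) ℂ), HypC T R H C b Λ Q η → ∀ x ∈ C,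
    - (K * Λ ^ 7 * (1 + AQt H Q x)) ≤ (trL Q (AQt H Q) x).re

/-- CLI. The Chern–Lu inequality on the compact set. USES: CL (`Pool.Agent.Helper15.HS.S_CL`), IPB, CRV, MatC.
PROOF. `CL`: `(trL Q t).re = - t + tr (η Q⁻¹ H Q⁻¹).re - KKt H Q + AAt H Q`, `t := tr (H Q⁻¹).re`. `EB (Q x)⁻¹ (c Λ)` (`IPB`), `H`, `crv H` bounded on `C`
by `κ`, `|η| ≤ b`: `|t| ≤ K Λ`, `|tr (η Q⁻¹ H Q⁻¹)| ≤ K Λ²`, `|KKt| ≤ K Λ²` (expand the sums). `AAt ≥ Λ⁻¹ AQt`: `IPB` (4). `0 ≤ t`: `tr (H Q⁻¹) ≥ 0` for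
positive definite matrices. -/
def S_CLI : Prop := ∀ {n : ℕ} (T : Set (Cn n)) {G : Type u} [Group G]
  (R : G → Cn n → Cn n → Prop) (H : Cn n → Matrix (Fin n) (Fin n) ℂ), KEt T R H →
  ∀ C, FunC T R C → ∀ b : ℝ, ∃ K : ℝ, 0 < K ∧ ∀ (Λ : ℝ)
    (Q η : Cn n → Matrix (Fin n) (Fin n) ℂ), HypC T R H C b Λ Q η →
    (∀ x ∈ T, 0 ≤ (Matrix.trace (H x * (Q x)⁻¹)).re) ∧ ∀ x ∈ C,
    (Matrix.trace (H x * (Q x)⁻¹)).re ≤ K * Λ ∧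
    Λ⁻¹ * AQt H Q x - K * Λ ^ 2 ≤
      (trL Q (fun y => (Matrix.trace (H y * (Q y)⁻¹)).re) x).re

/-- INVA. The function `AQt` is invariant. USES: WIRT, WCH, ARRB, CRV, IPA, MatC.
PROOF. Smooth: `CRV`. For an arrow `R γ x y` let `τ` be the local map on `U` (`Et.loc` or `ARRB`; `Arr R U τ`), `J z i p := (fderiv ℂ τ z (Pi.single i
1)) p`, invertible, holomorphic on `U`. `KEt.inv` on basis vectors: `Q z = J z Q(τ z) (J z)ᴴ` for `z ∈ U`, the same for `H`. Chain rule for the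
holomorphic map: `cd k (f ∘ τ) = ∑ m, J k m (cd m f) ∘ τ` (`WCH`), and `cdM k (Jᴴ) = (cdbM k J)ᴴ = 0`. So `D_k Q = D_k J (Q∘τ) Jᴴ + J (∑ m, J_km (D_m
Q)∘τ) Jᴴ` and `Gam Q k z = D_k J J⁻¹ + J (∑ m, J_km Gam Q m (τ z)) J⁻¹`, the same for `H`: `A_k(z) = J (∑ m, J_km A_m(τ z)) J⁻¹`. `(Q z)⁻¹ = J⁻ᴴ Q(τ z)⁻¹
J⁻¹`, so `tr (A_k Q A_lᴴ Q⁻¹)(z) = ∑ m m', J_km conj (J_lm') tr (A_m Q A_m'ᴴ Q⁻¹)(τ z)` and `∑ k l, (Q z)⁻¹ l k J_km conj (J_lm') = (Jᴴ (Q z)⁻¹ J)_m'm =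
(Q(τ z)⁻¹)_m'm`. -/
def S_INVA : Prop := ∀ {n : ℕ} (T : Set (Cn n)) {G : Type u} [Group G]
  (R : G → Cn n → Cn n → Prop) (H Q : Cn n → Matrix (Fin n) (Fin n) ℂ), KEt T R H → KEt T R Q →
  InvF T R (AQt H Q)

/-- TRMX. The trace of the Laplacian at a maximum on the fundamental set. USES: MAXF, KETP, LMF, WIRT.
PROOF. `MAXF`: a point `x₀ ∈ T` with `f y ≤ f x₀` for all `y ∈ T`; an arrow maps it to `x ∈ C` (`FunC`) and `f x = f x₀`. At `x` again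
`- LM f x` is positive semidefinite (the function has its maximum over the open set `T` at `x`: second derivative test as in
`MAXF`; or use that `LM f` transforms as a form under the arrow, `KETP`). `(trL Q f x).re = (tr (Q⁻¹ LM f x)).re ≤ 0` (`tr (M N) ≥ 0` for
positive semidefinite `M, N`). -/
def S_TRMX : Prop := ∀ {n : ℕ} (T : Set (Cn n)) {G : Type u} [Group G]
  (R : G → Cn n → Cn n → Prop) (Q : Cn n → Matrix (Fin n) (Fin n) ℂ), KEt T R Q →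
  ∀ C, FunC T R C → ∀ f : Cn n → ℝ, InvF T R f →
  ∃ x ∈ C, (∀ y ∈ T, f y ≤ f x) ∧ (- LM f x).PosSemidef ∧ (trL Q f x).re ≤ 0

/-- TRLA. Additivity of the Laplacian. USES: WIRT.
PROOF. `LM` is linear on smooth functions (`WIRT`), `trL` is the trace of `Q⁻¹ LM`. -/
def S_TRLA : Prop := ∀ {n : ℕ} (W : Set (Cn n)), IsOpen W →
  ∀ (Q : Cn n → Matrix (Fin n) (Fin n) ℂ) (f g : Cn n → ℝ) (a b : ℝ), ContDiffOn ℝ ∞ f W →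
  ContDiffOn ℝ ∞ g W → ∀ x ∈ W,
  LM (fun y => a * f y + b * g y) x = (a : ℂ) • LM f x + (b : ℂ) • LM g x ∧
  (trL Q (fun y => a * f y + b * g y) x).re = a * (trL Q f x).re + b * (trL Q g x).re

/-! ## The estimates of order zero and two -/

/-- C0E. The estimate of order zero. USES: TRMX, TRC, WIRT.
PROOF. Let `κ ≥ 0` be a bound on `C` for `|log (det X / det H)|` (positive continuous functions, `C` compact). `|f| ≤ b` on `T` (`f` is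
invariant and `C` is fundamental). At the maximum `x ∈ C` of `u` (`TRMX`) `- LM u x ≥ 0`, so `X + LM u ≤ X` and `det (X + LM u) ≤ det X`
(`TRC` (4)): `u + f + log det H ≤ log det X`, `u x ≤ κ + b`. At the maximum of `- u` (the minimum of `u`) `LM u x ≥ 0` (`LM (-u) = - LM u`),
`det X ≤ det (X + LM u)`, so `u x ≥ - κ - b`. -/
def S_C0E : Prop := ∀ {n : ℕ} (T : Set (Cn n)) {G : Type u} [Group G]
  (R : G → Cn n → Cn n → Prop) (H X : Cn n → Matrix (Fin n) (Fin n) ℂ), KEt T R H → KEt T R X →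
  ∀ C, FunC T R C → ∀ b : ℝ, ∃ Λ : ℝ, 1 ≤ Λ ∧ ∀ f u : Cn n → ℝ, InvF T R f →
    (∀ x ∈ C, |f x| ≤ b) → MASol T R H X f u → ∀ x ∈ T, |f x| ≤ b ∧ |u x| ≤ Λ

/-- RHOE. The equation for the metric. USES: WIRT, KETP, CRV, LMF, TRLA.
PROOF. `Q := X + LM u`. `ld Q = u + f + ld H` on `T` (logarithm of the equation; `det H > 0`), so `rho Q = LM u + LM f + rho H = Q - (X - LM f - rho
H)`. `CHF`, smoothness: `CRV` for `rho H`, `LMF` for `LM f`. -/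
def S_RHOE : Prop := ∀ {n : ℕ} (T : Set (Cn n)) {G : Type u} [Group G]
  (R : G → Cn n → Cn n → Prop) (H X : Cn n → Matrix (Fin n) (Fin n) ℂ), KEt T R H → KEt T R X →
  ∀ f u : Cn n → ℝ, InvF T R f → MASol T R H X f u →
  SmM (fun x => X x - LM f x - rho H x) T ∧ ∀ x ∈ T,
    rho (fun y => X y + LM u y) x = X x + LM u x - (X x - LM f x - rho H x)

/-- LAL. Linear algebra for the second order estimate.
PROOF. `H = S Sᴴ` (`S` invertible), `S⁻¹ Q S⁻ᴴ` Hermitian with eigenvalues `q_i > 0`, `t = tr (H Q⁻¹) = ∑ 1/q_i`. (1) `1/q_i ≤ t`, so `H ≤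
t Q` and `Q⁻¹ ≤ t H⁻¹`, hence the entries of `Q⁻¹` are bounded by `t κ` (`|M i j| ≤ max (M i i).re` for positive semidefinite `M`).
(2) expand the sums with (1): `|tr (Y Q⁻¹ H Q⁻¹)| ≤ n^4 κ (t κ)^2 y`, `|∑ Q⁻¹ j i Q⁻¹ l k R i j k l| ≤ n^4 (t κ)^2 y`. (3) If `det Q ≤ d det H`:
`∏ q_i ≤ d`, `q_j = ∏ q_i / ∏_{i ≠ j} q_i ≤ d t^(n-1)`, so `Q ≤ d t^(n-1) H ≤ d (1 + t)^n H`. (4) `tr (X Q⁻¹) ≥ r tr (H Q⁻¹)` if `X - r H ≥ 0`. -/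
def S_LAL : Prop := ∀ (n : ℕ) (κ : ℝ), 1 ≤ κ → ∃ c : ℝ, 1 ≤ c ∧
  ∀ H Q : Matrix (Fin n) (Fin n) ℂ, H.PosDef → Q.PosDef →
  (0 ≤ (Matrix.trace (H * Q⁻¹)).re ∧ (0 < n → 0 < (Matrix.trace (H * Q⁻¹)).re)) ∧
  MLe H (((Matrix.trace (H * Q⁻¹)).re : ℂ) • Q) ∧
  (EB H κ → EB H⁻¹ κ → ∀ y : ℝ, 0 ≤ y →
    (∀ Y : Matrix (Fin n) (Fin n) ℂ, EB Y y →
      ‖Matrix.trace (Y * Q⁻¹ * H * Q⁻¹)‖ ≤ c * y * (Matrix.trace (H * Q⁻¹)).re ^ 2) ∧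
    ∀ S : Fin n → Fin n → Fin n → Fin n → ℂ, (∀ i j k l, ‖S i j k l‖ ≤ y) →
      ‖∑ i, ∑ j, ∑ k, ∑ l, Q⁻¹ j i * Q⁻¹ l k * S i j k l‖ ≤
        c * y * (Matrix.trace (H * Q⁻¹)).re ^ 2) ∧
  (∀ d : ℝ, 0 ≤ d → Q.det.re ≤ d * H.det.re →
    MLe Q (((d * (1 + (Matrix.trace (H * Q⁻¹)).re) ^ n : ℝ) : ℂ) • H)) ∧
  ∀ (X : Matrix (Fin n) (Fin n) ℂ) (r : ℝ), MLe ((r : ℂ) • H) X →
    r * (Matrix.trace (H * Q⁻¹)).re ≤ (Matrix.trace (X * Q⁻¹)).re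

/-- LOGT. The Laplacian of the logarithm of the trace. USES: CL (`Helper15`), CLG or CLP (gradient of the trace), AAPS, CHN, LAL.
PROOF. `t := tr (H Q⁻¹).re > 0`, `cd k t = - tr (A_k H Q⁻¹)` (`CLP` of `Helper95` with `P = 1`, or directly: `D_k (H Q⁻¹) = Γ_k H Q⁻¹ - H Q⁻¹ G_k`), so
`∑ Q⁻¹ l k cd k t conj (cd l t) ≤ t AAt` (real parts; `AAPS` with `Y = H`). `CHN` for `F = log` on `J = (0, ∞)`: `trL Q (log t) = trL Q t / t - t⁻² ∑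
Q⁻¹ l k cd k t conj (cd l t)`, and `CL`. -/
def S_LOGT : Prop := ∀ {n : ℕ}, 0 < n → ∀ (W : Set (Cn n)), IsOpen W →
  ∀ H Q η : Cn n → Matrix (Fin n) (Fin n) ℂ, CHF H W → (∀ x ∈ W, (H x).PosDef) → CHF Q W →
  (∀ x ∈ W, (Q x).PosDef) → SmM η W → (∀ x ∈ W, rho Q x = Q x - η x) →
  ContDiffOn ℝ ∞ (fun y => Real.log (Matrix.trace (H y * (Q y)⁻¹)).re) W ∧ ∀ x ∈ W,
  (Matrix.trace (H x * (Q x)⁻¹)).re *
    (trL Q (fun y => Real.log (Matrix.trace (H y * (Q y)⁻¹)).re) x).re ≥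
  - (Matrix.trace (H x * (Q x)⁻¹)).re + (Matrix.trace (η x * (Q x)⁻¹ * H x * (Q x)⁻¹)).re -
    KKt H Q x

end Pool.Agent.Helper45.HS
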